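import Pool.Agent.Helper15.WA.Com

/-!
# Definitions for the local theory
-/

namespace GWA

/-- the parameter `x / y` at infinity -/
def tt {K : Type*} [Field K] {d : K} (P : E d) : K := xc P / yc P

/-- the residue field at the prime `π` -/
abbrev RF (π : GaussianInt) : Type := GaussianInt ⧸ Ideal.span {π}

open Classical in
/-- the residue map (zero outside the ring of integers) -/
noncomputable def rd (K : Type) [NormedField K] [Algebra GaussianInt K] (π : GaussianInt)
    (x : K) : RF π :=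
  if hx : ∃ a : GaussianInt, ‖x - algebraMap GaussianInt K a‖ < 1 then
    Ideal.Quotient.mk _ (Classical.choose hx)
  else 0

section

variable {K : Type} [NormedField K] [Algebra GaussianInt K] [NeZero (2 : K)] [DecidableEq K]
  {π : GaussianInt}

/-- The class of `(P, Q)` modulo `nb 0` is contained in `A`. -/
def Cl (A : Set (FLD K π).Sys) (d : Kˣ) (P Q : E (d : K)) : Prop :=
  ∀ P' Q' : E (d : K), P' - P ∈ nb π (d : K) 0 → Q' - Q ∈ nb π (d : K) 0 →
    (⟨d, P', Q'⟩ : (FLD K π).Sys) ∈ A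

/-- All `(d, Q, R)` with `nx Q ≡ c` and `R` near `T` are contained in `A`. -/
def Rc (A : Set (FLD K π).Sys) (c : K) : Prop :=
  ∀ (d : Kˣ) (Q R : E (d : K)), Q ≠ 0 → ‖nx Q - c‖ < 1 → R - T d.ne_zero ∈ nb π (d : K) 0 →
    (⟨d, Q, R⟩ : (FLD K π).Sys) ∈ A

/-- the pair `(P, Q)` of points has both `4 P` and `4 Q` in `nb 1` (used for `π ∣ 3`) -/
def cge1 (π : GaussianInt) {d : Kˣ} (P Q : E (d : K)) : Prop :=
  (4 : GaussianInt) • P ∈ nb π (d : K) 1 ∧ (4 : GaussianInt) • Q ∈ nb π (d : K) 1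

end

end GWA
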