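import Mathlib

/-!
# Abstract framework for the induction over the places

`LD` : abstract local data at a place: twists `D`, `ℤ[i]`-modules `M d` with a point `T d`,
neighbourhoods `nb d n` of `0`, and the graph `S` of a partial involution of the set
`Sys` of all triples `(d, P, Q)` with `P, Q ∈ M d`.
-/

namespace GWA

/-- local data -/
structure LD where
  /-- the twists -/
  D : Type
  /-- the modules of points -/
  M : D → Type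
  [acg : ∀ d, AddCommGroup (M d)]
  [mod : ∀ d, Module GaussianInt (M d)]
  /-- a point of order 2 -/
  T : ∀ d, M d
  /-- neighbourhoods of zero -/
  nb : ∀ d, ℕ → Set (M d)
  /-- the graph of the involution -/
  S : (Σ d, M d × M d) → (Σ d, M d × M d) → Prop

attribute [instance] LD.acg LD.mod

namespace LD

variable (L : LD)

/-- the local systems -/
abbrev Sys : Type := Σ d, L.M d × L.M d

/-- `t'` is close to `t` -/
def close (n : ℕ) (t' t : L.Sys) : Prop :=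
  ∃ P' Q' : L.M t.1, t' = ⟨t.1, P', Q'⟩ ∧ P' - t.2.1 ∈ L.nb t.1 n ∧ Q' - t.2.2 ∈ L.nb t.1 n

/-- affine maps -/
def aff (α β γ δ κ μ : GaussianInt) (t : L.Sys) : L.Sys :=
  ⟨t.1, α • t.2.1 + β • t.2.2 + κ • L.T t.1, γ • t.2.1 + δ • t.2.2 + μ • L.T t.1⟩

/-- the points near the node `(κ T, μ T)` -/
def NNε (κ μ : GaussianInt) : Set L.Sys :=
  {t | ∃ η₁ ∈ L.nb t.1 0, ∃ η₂ ∈ L.nb t.1 0, t = ⟨t.1, κ • L.T t.1 + η₁, μ • L.T t.1 + η₂⟩}

/-- the points near the nodes -/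
def NN : Set L.Sys := {t | ∃ κ μ : GaussianInt, t ∈ L.NNε κ μ}

/-- a set of local systems which is closed and stable under the affine maps and the involution -/
structure LStable (A : Set L.Sys) : Prop where
  cl : ∀ t, (∀ n, ∃ t' ∈ A, L.close n t' t) → t ∈ A
  aff : ∀ α β γ δ κ μ : GaussianInt, IsUnit (α * δ - β * γ) → ∀ t ∈ A, L.aff α β γ δ κ μ t ∈ A
  sig : ∀ t t' : L.Sys, L.S t t' → t ∈ A → t' ∈ A

/-- Axioms for a place with prime element `π` -/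
structure FinAx (π : GaussianInt) : Prop where
  prime : Prime π
  nb_zero : ∀ d n, (0 : L.M d) ∈ L.nb d n
  nb_add : ∀ d n, ∀ P ∈ L.nb d n, ∀ Q ∈ L.nb d n, P + Q ∈ L.nb d n
  nb_smul : ∀ d n, ∀ α : GaussianInt, ∀ P ∈ L.nb d n, α • P ∈ L.nb d n
  nb_anti : ∀ d n, L.nb d (n + 1) ⊆ L.nb d n
  two_T : ∀ d, (2 : GaussianInt) • L.T d = 0
  /-- existence of elements of large finite level -/
  lev : ∀ d n, ∃ η ∈ L.nb d n, ∃ m, η ∉ L.nb d m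
  /-- an element of level exactly `n` generates a dense submodule of `nb n` -/
  gen : ∀ d n, ∀ η ∈ L.nb d n, η ∉ L.nb d (n + 1) → ∀ ξ ∈ L.nb d n, ∀ m,
    ∃ α : GaussianInt, ξ - α • η ∈ L.nb d m
  pi_smul : ∀ d n, ∀ P ∈ L.nb d n, π • P ∈ L.nb d (n + 1)
  /-- exponent of the group modulo `nb 0` -/
  expo : ∀ d, ∃ a : GaussianInt, a ≠ 0 ∧ (∀ P : L.M d, a • P ∈ L.nb d 0) ∧
    ∀ π' : GaussianInt, Prime π' → ¬ π' ∣ 2 → π.norm.natAbs ≤ π'.norm.natAbs → ¬ π' ∣ a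
  symm : ∀ t t', L.S t t' → L.S t' t
  dens : ∀ t n, ∃ t', L.close n t' t ∧ ∃ t'', L.S t'' t'
  /-- limits of the involution at `(Q', 0)` -/
  lim : ∀ d, ∀ Q : L.M d, ∀ n, ∃ d', ∃ Q' : L.M d', (∀ g : GaussianInt, g ≠ 0 → g • Q' ≠ 0) ∧
    ∃ m, ∀ g : GaussianInt, g ≠ 0 → g • Q' ∈ L.nb d' m →
      ∃ t', L.S ⟨d', Q', g • Q'⟩ t' ∧ L.close n t' ⟨d, Q, 0⟩

/-- Axioms for a place not above 2 -/
structure TameAx (π : GaussianInt) : Prop extends L.FinAx π where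
  odd : ¬ π ∣ 2
  /-- in every class of points near the nodes there is one with image near the nodes -/
  sigNN : ∀ d c, ∀ η ∈ L.nb d c, η ∉ L.nb d (c + 1) → ∀ κ μ : GaussianInt,
    ∃ η₁ ∈ L.nb d c, ∃ η₂ ∈ L.nb d c, (η₁ ∉ L.nb d (c + 1) ∨ η₂ ∉ L.nb d (c + 1)) ∧
      ∃ t' ∈ L.NN, L.S t' ⟨d, κ • L.T d + η₁, μ • L.T d + η₂⟩
  sigTT : ∀ d c, ∀ η ∈ L.nb d c, η ∉ L.nb d (c + 1) →
    ∃ η₁ ∈ L.nb d c, ∃ η₂ ∈ L.nb d c, (η₁ ∉ L.nb d (c + 1) ∨ η₂ ∉ L.nb d (c + 1)) ∧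
      ∃ t' ∈ L.NNε 0 0, L.S t' ⟨d, L.T d + η₁, L.T d + η₂⟩
  sigT1 : ∀ d c, ∀ η ∈ L.nb d c, η ∉ L.nb d (c + 1) →
    ∃ η₁ ∈ L.nb d c, ∃ η₂ ∈ L.nb d c, (η₁ ∉ L.nb d (c + 1) ∨ η₂ ∉ L.nb d (c + 1)) ∧
      ∃ t' ∈ L.NNε 1 ⟨0, 1⟩, L.S t' ⟨d, L.T d + η₁, (⟨1, 1⟩ : GaussianInt) • L.T d + η₂⟩
  /-- local transitivity -/
  trans : ∀ A : Set L.Sys, L.LStable A → L.NN ⊆ A → A = Set.univ

/-- Axioms for the place above 2 -/
structure LamAx : Prop extends L.FinAx ⟨1, 1⟩ where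
  trans : ∀ A : Set L.Sys, L.LStable A → (∀ d, ∀ P : L.M d, (⟨d, P, 0⟩ : L.Sys) ∈ A) →
    A = Set.univ

/-- Axioms for the complex place -/
structure InfAx : Prop where
  nb_zero : ∀ d n, (0 : L.M d) ∈ L.nb d n
  dens : ∀ t n, ∃ t', L.close n t' t ∧ ∃ t'', L.S t'' t'
  nontor : ∀ d, ∀ P : L.M d, ∀ n, ∃ P' : L.M d, (∀ g : GaussianInt, g ≠ 0 → g • P' ≠ 0) ∧
    P' - P ∈ L.nb d n
  orb : ∀ d, ∀ P : L.M d, (∀ g : GaussianInt, g ≠ 0 → g • P ≠ 0) → ∀ a : GaussianInt, a ≠ 0 →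
    ∀ Q : L.M d, ∀ n, ∃ α : GaussianInt, Q - (a * α) • P ∈ L.nb d n

end LD

/-- A predicate on global systems, stable with respect to the places of the finite set `A`. -/
structure Stable {ι : Type} (L : ι → LD) (A : Finset ι) (F : (∀ v, (L v).Sys) → Prop) : Prop where
  dep : ∀ s s', (∀ v ∈ A, s v = s' v) → F s → F s'
  cl : ∀ s, (∀ n, ∃ s', F s' ∧ ∀ v ∈ A, (L v).close n (s' v) (s v)) → F s
  aff : ∀ α β γ δ κ μ : GaussianInt, IsUnit (α * δ - β * γ) → ∀ s, F s →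
    F fun v => (L v).aff α β γ δ κ μ (s v)
  sig : ∀ s s', F s → (∀ v ∈ A, (L v).S (s v) (s' v)) → F s'
  base : ∀ s, (∀ v ∈ A, (s v).2.2 = 0) → F s

/-- the kinds of places -/
inductive Kind
  | tame (π : GaussianInt)
  | lam
  | inf

/-- the axioms for a place of a given kind -/
def KindAx (L : LD) : Kind → Prop
  | .tame π => L.TameAx π
  | .lam => L.LamAx
  | .inf => L.InfAx

end GWA
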