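import Pool.Agent.Helper10.GWA.LB

/-!
# Congruences modulo the maximal ideal
-/

namespace GWA

/-- congruence of integral elements -/
structure Cg {K : Type} [NormedField K] (x y : K) : Prop where
  l : ‖x‖ ≤ 1
  r : ‖y‖ ≤ 1
  c : ‖x - y‖ < 1

namespace Cg

variable {K : Type} [NormedField K] [Algebra GaussianInt K] {π : GaussianInt}

omit [Algebra GaussianInt K] in
theorem rfl' {x : K} (hx : ‖x‖ ≤ 1) : Cg x x := ⟨hx, hx, by simp⟩

omit [Algebra GaussianInt K] in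
theorem symm {x y : K} (h : Cg x y) : Cg y x := ⟨h.r, h.l, by rw [norm_sub_rev]; exact h.c⟩

theorem mk' (h : LocHyp K π) {x y : K} (hy : ‖y‖ ≤ 1) (hxy : ‖x - y‖ < 1) : Cg x y := by
  refine ⟨?_, hy, hxy⟩
  have := h.ultra (x - y) y
  rw [sub_add_cancel] at this
  exact this.trans (max_le hxy.le hy)

theorem trans (h : LocHyp K π) {x y z : K} (h1 : Cg x y) (h2 : Cg y z) : Cg x z := by
  refine ⟨h1.l, h2.r, ?_⟩
  have e : x - z = (x - y) + (y - z) := by ring
  rw [e]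
  exact (h.ultra _ _).trans_lt (max_lt h1.c h2.c)

theorem add (h : LocHyp K π) {x y x' y' : K} (h1 : Cg x y) (h2 : Cg x' y') :
    Cg (x + x') (y + y') := by
  refine ⟨(h.ultra _ _).trans (max_le h1.l h2.l), (h.ultra _ _).trans (max_le h1.r h2.r), ?_⟩
  have e : x + x' - (y + y') = (x - y) + (x' - y') := by ring
  rw [e]
  exact (h.ultra _ _).trans_lt (max_lt h1.c h2.c)

omit [Algebra GaussianInt K] in
theorem neg {x y : K} (h1 : Cg x y) : Cg (-x) (-y) := by
  refine ⟨by rw [norm_neg]; exact h1.l, by rw [norm_neg]; exact h1.r, ?_⟩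
  have e : -x - -y = -(x - y) := by ring
  rw [e, norm_neg]
  exact h1.c

theorem sub (h : LocHyp K π) {x y x' y' : K} (h1 : Cg x y) (h2 : Cg x' y') :
    Cg (x - x') (y - y') := by
  rw [sub_eq_add_neg, sub_eq_add_neg]
  exact h1.add h h2.neg

theorem mul (h : LocHyp K π) {x y x' y' : K} (h1 : Cg x y) (h2 : Cg x' y') :
    Cg (x * x') (y * y') := by
  have hm : ∀ a b : K, ‖a‖ ≤ 1 → ‖b‖ ≤ 1 → ‖a * b‖ ≤ 1 := by
    intro a b ha hb
    rw [norm_mul]
    exact mul_le_one₀ ha (norm_nonneg _) hb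
  refine ⟨hm _ _ h1.l h2.l, hm _ _ h1.r h2.r, ?_⟩
  have e : x * x' - y * y' = x * (x' - y') + (x - y) * y' := by ring
  rw [e]
  refine (h.ultra _ _).trans_lt (max_lt ?_ ?_)
  · rw [norm_mul]
    exact (mul_le_of_le_one_left (norm_nonneg _) h1.l).trans_lt h2.c
  · rw [norm_mul]
    exact (mul_le_of_le_one_right (norm_nonneg _) h2.r).trans_lt h1.c

theorem pow (h : LocHyp K π) {x y : K} (h1 : Cg x y) (n : ℕ) : Cg (x ^ n) (y ^ n) := by
  induction n with
  | zero => rw [pow_zero, pow_zero]; exact rfl' (by simp)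
  | succ n ih => rw [pow_succ, pow_succ]; exact ih.mul h h1

theorem norm_eq (h : LocHyp K π) {x y : K} (h1 : Cg x y) (hy : ‖y‖ = 1) : ‖x‖ = 1 := by
  have e : x = y + (x - y) := by ring
  rw [e, h.norm_sum_eq (by rw [hy]; exact h1.c), hy]

theorem norm_lt (h : LocHyp K π) {x y : K} (h1 : Cg x y) (hy : ‖y‖ < 1) : ‖x‖ < 1 := by
  have e : x = y + (x - y) := by ring
  rw [e]
  exact (h.ultra _ _).trans_lt (max_lt hy h1.c)

theorem inv (h : LocHyp K π) {x y : K} (h1 : Cg x y) (hy : ‖y‖ = 1) : Cg x⁻¹ y⁻¹ := by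
  have hx := h1.norm_eq h hy
  have hx0 : x ≠ 0 := by rintro rfl; simp at hx
  have hy0 : y ≠ 0 := by rintro rfl; simp at hy
  refine ⟨by rw [norm_inv, hx, inv_one], by rw [norm_inv, hy, inv_one], ?_⟩
  have e : x⁻¹ - y⁻¹ = -(x - y) * (x⁻¹ * y⁻¹) := by field_simp; ring
  rw [e, norm_mul, norm_neg, norm_mul, norm_inv, norm_inv, hx, hy]
  simpa using h1.c

theorem div (h : LocHyp K π) {x y x' y' : K} (h1 : Cg x y) (h2 : Cg x' y') (hy : ‖y'‖ = 1) :
    Cg (x / x') (y / y') := by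
  rw [div_eq_mul_inv, div_eq_mul_inv]
  exact h1.mul h (h2.inv h hy)

theorem int (h : LocHyp K π) (n : ℤ) : Cg (n : K) (n : K) := rfl' (h.norm_intCast_le n)

theorem two (h : LocHyp K π) : Cg (2 : K) (2 : K) := rfl' (h.norm_ofNat_le 2)

theorem three (h : LocHyp K π) : Cg (3 : K) (3 : K) := rfl' (h.norm_ofNat_le 3)

theorem four (h : LocHyp K π) : Cg (4 : K) (4 : K) := rfl' (h.norm_ofNat_le 4)

omit [Algebra GaussianInt K] in
theorem one : Cg (1 : K) (1 : K) := rfl' (by simp)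

theorem II : Cg (GWA.II K) (GWA.II K) := rfl' (LocHyp.norm_II K).le

end Cg

end GWA
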