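import Pool.Agent.Helper15.WA.Conc

/-!
# The normalised x-coordinate and the neighbourhoods of zero
-/

namespace GWA

open Topology

/-- normalised x-coordinate `xc P / d` -/
def nx {K : Type*} [Field K] {d : K} (P : E d) : K := xc P / d

section field

variable {K : Type*} [Field K]

@[simp] theorem nx_zero {d : K} : nx (0 : E d) = 0 := by simp [nx]

@[simp] theorem nx_neg {d : K} (P : E d) : nx (-P) = nx P := by simp [nx]

theorem xc_eq {d : K} (hd : d ≠ 0) (P : E d) : xc P = d * nx P := by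
  unfold nx; field_simp

theorem yc_sq_nx {d : K} (hd : d ≠ 0) (P : E d) : yc P ^ 2 = d ^ 3 * ff (nx P) :=
  yc_sq_ff hd P

/-- `d * f (nx P)` is a square -/
theorem sq_ff_nx {d : K} (hd : d ≠ 0) (P : E d) : (yc P / d) ^ 2 = d * ff (nx P) := by
  rw [div_pow, yc_sq_nx hd]; field_simp

theorem nx_eq_iff {d : K} (hd : d ≠ 0) {P Q : E d} (hP : P ≠ 0) (hQ : Q ≠ 0) :
    nx P = nx Q ↔ P = Q ∨ P = -Q := by
  rw [← xc_eq_iff hP hQ]
  unfold nx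
  constructor
  · intro h; field_simp at h; exact h
  · intro h; rw [h]

theorem yc_ne_iff {d : K} (hd : d ≠ 0) (P : E d) : yc P ≠ 0 ↔ ff (nx P) ≠ 0 := by
  have h := yc_sq_nx hd P
  constructor
  · intro h1 h2
    rw [h2, mul_zero] at h
    exact h1 (pow_eq_zero_iff two_ne_zero |>.1 h)
  · intro h1 h2
    rw [h2] at h
    have h3 : d ^ 3 * ff (nx P) = 0 := by rw [← h]; ring
    exact (mul_ne_zero (pow_ne_zero 3 hd) h1) h3

/-- existence of points with given normalised x-coordinate -/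
theorem exists_pt [NeZero (2 : K)] {d : K} (hd : d ≠ 0) {x s : K} (h : s ^ 2 = d * ff x) :
    ∃ P : E d, P ≠ 0 ∧ nx P = x ∧ yc P = d * s := by
  refine ⟨mkP hd (d * x) (d * s) ?_, mkP_ne _ _ _ _, ?_, ?_⟩
  · have : (d * s) ^ 2 = d ^ 2 * s ^ 2 := by ring
    rw [this, h, ff]; ring
  · unfold nx; rw [xc_mkP]; field_simp
  · rw [yc_mkP]

variable [DecidableEq K]

omit [DecidableEq K] in
@[simp] theorem nx_T [NeZero (2 : K)] {d : K} (hd : d ≠ 0) : nx (T hd) = 1 := by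
  unfold nx; rw [xc_T]; field_simp

omit [DecidableEq K] in
@[simp] theorem nx_T₀ [NeZero (2 : K)] {d : K} (hd : d ≠ 0) : nx (T₀ hd) = 0 := by
  unfold nx; rw [xc_T₀]; simp

theorem nx_add_T [NeZero (2 : K)] {d : K} (hd : d ≠ 0) {P : E d} (hP : P ≠ 0)
    (hx : nx P ≠ 1) : P + T hd ≠ 0 ∧ nx (P + T hd) = (nx P + 1) / (nx P - 1) := by
  have h1 : P ≠ T hd := by
    intro h; rw [h, nx_T] at hx; exact hx rfl
  obtain ⟨h2, h3, h4, -⟩ := add_T hd hP h1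
  refine ⟨h2, ?_⟩
  have hx' : nx P - 1 ≠ 0 := sub_ne_zero.2 hx
  unfold nx at hx' ⊢
  rw [h4]
  field_simp

theorem nx_add_T₀ [NeZero (2 : K)] {d : K} (hd : d ≠ 0) {P : E d} (hP : P ≠ 0)
    (hx : nx P ≠ 0) : P + T₀ hd ≠ 0 ∧ nx (P + T₀ hd) = -1 / nx P := by
  have h1 : P ≠ T₀ hd := by
    intro h; rw [h, nx_T₀] at hx; exact hx rfl
  obtain ⟨h2, h3, h4, -⟩ := add_T₀ hd hP h1
  refine ⟨h2, ?_⟩
  unfold nx at hx ⊢
  rw [h4]
  field_simp

/-- sum of the x-coordinates of `P + Q` and `P - Q` -/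
theorem nx_add_add {d : K} (hd : d ≠ 0) {P Q : E d} (hP : P ≠ 0) (hQ : Q ≠ 0)
    (hx : nx P ≠ nx Q) : (nx (P + Q) + nx (P - Q)) * (nx P - nx Q) ^ 2 =
      2 * (nx P * nx Q - 1) * (nx P + nx Q) := by
  have hx' : xc P ≠ xc Q := fun h => hx (by unfold nx; rw [h])
  have h1 := (xc_add_mul hP hQ hx').2
  have h2 := (xc_sub_mul hP hQ hx').2
  rw [xc_eq hd (P + Q), xc_eq hd P, xc_eq hd Q] at h1
  rw [xc_eq hd (P - Q), xc_eq hd P, xc_eq hd Q] at h2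
  apply mul_left_cancel₀ (pow_ne_zero 3 hd)
  linear_combination h1 + h2

/-- product of the x-coordinates of `P + Q` and `P - Q` -/
theorem nx_add_mul {d : K} (hd : d ≠ 0) {P Q : E d} (hP : P ≠ 0) (hQ : Q ≠ 0)
    (hx : nx P ≠ nx Q) : nx (P + Q) * nx (P - Q) * (nx P - nx Q) ^ 2 =
      (nx P * nx Q + 1) ^ 2 := by
  have hx' : xc P ≠ xc Q := fun h => hx (by unfold nx; rw [h])
  have h1 := xc_add_sub hP hQ hx'
  rw [xc_eq hd (P + Q), xc_eq hd (P - Q), xc_eq hd P, xc_eq hd Q] at h1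
  apply mul_left_cancel₀ (pow_ne_zero 4 hd)
  linear_combination h1

/-- chord formula -/
theorem nx_add {d : K} (hd : d ≠ 0) {P Q : E d} (hP : P ≠ 0) (hQ : Q ≠ 0)
    (hx : nx P ≠ nx Q) : P + Q ≠ 0 ∧ nx (P + Q) * (nx P - nx Q) ^ 2 =
      (nx P * nx Q - 1) * (nx P + nx Q) - 2 * (yc P * yc Q / d ^ 3) := by
  have hx' : xc P ≠ xc Q := fun h => hx (by unfold nx; rw [h])
  obtain ⟨h0, h1⟩ := xc_add_mul hP hQ hx'
  refine ⟨h0, ?_⟩
  rw [xc_eq hd (P + Q), xc_eq hd P, xc_eq hd Q] at h1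
  apply mul_left_cancel₀ (pow_ne_zero 3 hd)
  have h2 : d ^ 3 * ((nx P * nx Q - 1) * (nx P + nx Q) - 2 * (yc P * yc Q / d ^ 3)) =
      d ^ 3 * ((nx P * nx Q - 1) * (nx P + nx Q)) - 2 * (yc P * yc Q) := by
    field_simp
  rw [h2]
  linear_combination h1

theorem nx_double [NeZero (2 : K)] {d : K} (hd : d ≠ 0) {P : E d} (hP : P ≠ 0)
    (hy : ff (nx P) ≠ 0) :
    P + P ≠ 0 ∧ nx (P + P) * (4 * ff (nx P)) = (nx P ^ 2 + 1) ^ 2 := by
  obtain ⟨h0, h1⟩ := xc_double hP ((yc_ne_iff hd P).2 hy)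
  refine ⟨h0, ?_⟩
  rw [xc_eq hd (P + P), xc_eq hd P, yc_sq_nx hd] at h1
  apply mul_left_cancel₀ (pow_ne_zero 4 hd)
  linear_combination h1

variable [Algebra GaussianInt K] [NeZero (2 : K)]

theorem nx_gi_smul (d : Kˣ) (P : E (d : K)) : nx (gi • P) = - nx P := by
  unfold nx; rw [xc_gi_smul]; ring

theorem gi_smul_ne (d : Kˣ) {P : E (d : K)} (hP : P ≠ 0) : gi • P ≠ 0 := by
  rw [gi_smul]; exact im_ne d.ne_zero hP

theorem nx_lam_smul (d : Kˣ) {P : E (d : K)} (hP : P ≠ 0) (h0 : nx P ≠ 0) :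
    lam • P ≠ 0 ∧ nx (lam • P) = (nx P ^ 2 - 1) / (2 * II K * nx P) := by
  have hd := d.ne_zero
  have hx : xc P ≠ 0 := by rw [xc_eq hd]; exact mul_ne_zero hd h0
  obtain ⟨h1, h2⟩ := xc_lam_smul d hP hx
  refine ⟨h1, ?_⟩
  have hI : II K ≠ 0 := II_ne
  have h2' : (2 : K) ≠ 0 := two_ne_zero
  rw [eq_div_iff (by positivity)]
  rw [xc_eq hd (lam • P), xc_eq hd P] at h2
  apply mul_left_cancel₀ (pow_ne_zero 2 hd)
  linear_combination h2

theorem lam_smul_T₀ (d : Kˣ) : lam • T₀ d.ne_zero = 0 := by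
  rw [lam_smul, gi_smul, im_T₀, T₀_add_T₀]

/-- `i T` -/
theorem nx_gi_T (d : Kˣ) : nx (gi • T d.ne_zero) = -1 := by
  rw [nx_gi_smul, nx_T]

theorem T_add_gi_T (d : Kˣ) : T d.ne_zero + gi • T d.ne_zero = T₀ d.ne_zero := by
  rw [← lam_smul, lam_smul_T]

end field

/-! ### the relation `SRel` in terms of `nx` -/

section srel

variable {K : Type*} [Field K] [NeZero (2 : K)]

theorem SRel.elim {t t' : Σ d : Kˣ, E (d : K) × E (d : K)} (h : SRel t t') :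
    t.2.1 ≠ 0 ∧ t.2.2 ≠ 0 ∧ t'.2.1 ≠ 0 ∧ t'.2.2 ≠ 0 ∧
    ff (nx t.2.1) ≠ 0 ∧ ff (nx t.2.2) ≠ 0 ∧ ff (nx t'.2.1) ≠ 0 ∧ ff (nx t'.2.2) ≠ 0 ∧
    sD (nx t.2.1) (nx t.2.2) ≠ 0 ∧ sS (nx t.2.1) (nx t.2.2) ≠ 0 ∧
    sQ (nx t.2.1) (nx t.2.2) ≠ 0 ∧
    nx t'.2.1 = sx (nx t.2.1) (nx t.2.2) ∧ nx t'.2.2 = sy (nx t.2.1) (nx t.2.2) := by
  obtain ⟨u, h, h1, h2⟩ := h
  have e1 : nx t.2.1 = u.x := by
    unfold nx; rw [← h1.2.2.2.1, mul_div_cancel_right₀ _ h1.1]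
  have e2 : nx t.2.2 = u.y := by
    unfold nx; rw [← h1.2.2.2.2.1, mul_div_cancel_right₀ _ h1.1]
  have e3 : nx t'.2.1 = sx u.x u.y := by
    unfold nx; rw [← h2.2.2.2.1, mul_div_cancel_right₀ _ h2.1]; rfl
  have e4 : nx t'.2.2 = sy u.x u.y := by
    unfold nx; rw [← h2.2.2.2.2.1, mul_div_cancel_right₀ _ h2.1]; rfl
  rw [e1, e2, e3, e4]
  refine ⟨h1.2.1, h1.2.2.1, h2.2.1, h2.2.2.1, u.hfx, u.hfy, ?_, ?_, h.1, h.2.1, h.2.2, rfl, rfl⟩
  · exact (iota u h).hfx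
  · exact (iota u h).hfy

/-- constructor of the relation, up to a sign -/
theorem SRel.intro {d d' : Kˣ} {P Q : E (d : K)} {P' Q' : E (d' : K)}
    (hP : ff (nx P) ≠ 0) (hQ : ff (nx Q) ≠ 0)
    (hP' : P' ≠ 0) (hQ' : Q' ≠ 0)
    (hD : sD (nx P) (nx Q) ≠ 0) (hS : sS (nx P) (nx Q) ≠ 0) (hQq : sQ (nx P) (nx Q) ≠ 0)
    (hx : nx P' = sx (nx P) (nx Q)) (hy : nx Q' = sy (nx P) (nx Q)) :
    SRel ⟨d, P, Q⟩ ⟨d', P', Q'⟩ ∨ SRel ⟨d, P, Q⟩ ⟨d', P', -Q'⟩ := by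
  have hd := d.ne_zero
  have hd' := d'.ne_zero
  have hyP := (yc_ne_iff hd P).2 hP
  have hyQ := (yc_ne_iff hd Q).2 hQ
  set u := mkPt hd P Q hyP hyQ with hu
  have hux : u.x = nx P := rfl
  have huy : u.y = nx Q := rfl
  have huz : u.z = yc P * yc Q / d ^ 3 := rfl
  have hI : IOK u := by
    refine ⟨?_, ?_, ?_⟩ <;> rw [hux, huy] <;> assumption
  have h1 : Rep u d P Q := rep_mkPt hd hyP hyQ
  have hz2 : (yc P' * yc Q' / (d' : K) ^ 3) ^ 2 = ((iota u hI).z) ^ 2 := by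
    rw [(iota u hI).eqn, iota_x, iota_y, hux, huy, ← hx, ← hy, div_pow, mul_pow, yc_sq_nx hd',
      yc_sq_nx hd']
    field_simp
  rcases sq_eq_sq_iff_eq_or_eq_neg.1 hz2 with hz | hz
  · left
    refine ⟨u, hI, h1, hd', hP', hQ', ?_, ?_, ?_⟩
    · rw [iota_x, hux, huy, ← hx]; change nx P' * (d' : K) = xc P'; rw [xc_eq hd' P']; ring
    · rw [iota_y, hux, huy, ← hy]; change nx Q' * (d' : K) = xc Q'; rw [xc_eq hd' Q']; ring
    · rw [← hz]; change _ * (d' : K) ^ 3 = yc P' * yc Q'; field_simp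
  · right
    refine ⟨u, hI, h1, hd', hP', neg_ne hQ', ?_, ?_, ?_⟩
    · rw [iota_x, hux, huy, ← hx]; change nx P' * (d' : K) = xc P'; rw [xc_eq hd' P']; ring
    · change (iota u hI).y * (d' : K) = xc (-Q')
      rw [iota_y, hux, huy, ← hy, xc_neg, xc_eq hd' Q']; ring
    · change (iota u hI).z * (d' : K) ^ 3 = yc P' * yc (-Q')
      have hz' : (iota u hI).z = -(yc P' * yc Q' / (d' : K) ^ 3) := by rw [hz, neg_neg]
      rw [hz', yc_neg]; field_simp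

end srel

/-! ### neighbourhoods -/

section nb

variable {K : Type*} [NormedField K]

theorem mem_nbh_iff {c : ℝ} {d : K} (hd : d ≠ 0) {n : ℕ} {P : E d} :
    P ∈ nbh c d n ↔ P = 0 ∨ c ^ (2 * n + 1) ≤ ‖nx P‖ := by
  have hd' : 0 < ‖d‖ := norm_pos_iff.2 hd
  unfold nbh nx
  rw [Set.mem_ofPred_eq, norm_div, le_div_iff₀ hd']

theorem zero_mem_nbh (c : ℝ) (d : K) (n : ℕ) : (0 : E d) ∈ nbh c d n := Or.inl rfl

theorem neg_mem_nbh {c : ℝ} {d : K} {n : ℕ} {P : E d} (h : P ∈ nbh c d n) : -P ∈ nbh c d n := by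
  rcases h with h | h
  · left; rw [h]; rfl
  · right; rwa [xc_neg]

theorem nbh_anti {c : ℝ} (hc : 1 ≤ c) (d : K) {m n : ℕ} (h : m ≤ n) :
    nbh c d n ⊆ nbh c d m := by
  rintro P (hP | hP)
  · exact Or.inl hP
  · right
    refine le_trans ?_ hP
    exact mul_le_mul_of_nonneg_right (pow_le_pow_right₀ hc (by omega)) (norm_nonneg _)

end nb

/-! ### the local data at a finite place -/

/-- neighbourhoods of zero at the place `π`: `P = 0` or `‖nx P‖ ≥ ‖π‖ ^ (-(2 n + 1))` -/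
abbrev nb {K : Type} [NormedField K] [Algebra GaussianInt K] (π : GaussianInt) (d : K) (n : ℕ) :
    Set (E d) := nbh (‖algebraMap GaussianInt K π‖)⁻¹ d n

/-- the local data at a finite place -/
noncomputable abbrev FLD (K : Type) [NormedField K] [Algebra GaussianInt K] [NeZero (2 : K)]
    [DecidableEq K] (π : GaussianInt) : LD := KLD K (‖algebraMap GaussianInt K π‖)⁻¹

end GWA
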