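import Pool.Agent.Helper15.WA.Kum
import Pool.Agent.Helper15.WA.AbsDefs

/-!
# The concrete local data
-/

namespace GWA

open Topology

/-- neighbourhoods of zero: `P = 0` or `|x(P)| ≥ c ^ (2 n + 1)`, where `x(P) = xc P / d` -/
def nbh {K : Type*} [NormedField K] (c : ℝ) (d : K) (n : ℕ) : Set (E d) :=
  {P | P = 0 ∨ c ^ (2 * n + 1) * ‖d‖ ≤ ‖xc P‖}

/-- the local data of a normed field which is a `ℤ[i]`-algebra -/
noncomputable def KLD (K : Type) [NormedField K] [Algebra GaussianInt K] [NeZero (2 : K)]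
    [DecidableEq K] (c : ℝ) : LD where
  D := Kˣ
  M d := E (d : K)
  acg _ := inferInstance
  mod d := instModE d
  T d := T d.ne_zero
  nb d n := nbh c (d : K) n
  S := SRel

/-- Hypotheses on the completion of `ℚ(i)` at the prime element `π` -/
structure LocHyp (K : Type) [NormedField K] [Algebra GaussianInt K] (π : GaussianInt) : Prop where
  prime : Prime π
  ultra : ∀ x y : K, ‖x + y‖ ≤ max ‖x‖ ‖y‖
  complete : CompleteSpace K
  char0 : CharZero K
  /-- `π` has absolute value less than one -/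
  norm_pi : ‖algebraMap GaussianInt K π‖ < 1
  /-- `π` is a uniformizer -/
  unif : ∀ x : K, x ≠ 0 → ∃ n : ℤ, ‖x‖ = ‖algebraMap GaussianInt K π‖ ^ n
  /-- the residue field is that of `ℤ[i]` -/
  res : ∀ x : K, ‖x‖ ≤ 1 → ∃ a : GaussianInt, ‖x - algebraMap GaussianInt K a‖ < 1

end GWA
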