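import Pool.Agent.Helper15.WA.TransTame
import Pool.Agent.Helper9.GWA.Tame
import Pool.Agent.Helper9.GWA.Tame2
import Pool.Agent.Helper9.GWA.Final
import Pool.Agent.Helper10.GWA.Inf3

/-!
# Full weak approximation over `ℚ(i)`
-/

namespace GWA

open NumberField IsDedekindDomain Module

theorem full (K : Type) [Field K] [NumberField K] (i : K) (hi : i ^ 2 = -1)
    (h2 : finrank ℚ K = 2) :
    DenseRange (fun u : Pt K => ((fun v : HeightOneSpectrum (𝓞 K) =>
      Pt.map (algebraMap K (v.adicCompletion K)) u), (fun w : InfinitePlace K =>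
        Pt.map (algebraMap K w.Completion) u))) := by
  apply final_of_local K i hi h2
  · intro L _ _ _ _ π h hodd
    exact h.tameAx_of_trans hodd (fun A hA hNN => h.trans_tame hodd A hA hNN)
  · intro L _ _ _ _ h
    exact h.lamAx
  · let _ : Algebra GaussianInt ℂ := GaussianInt.toComplex.toAlgebra
    intro _
    exact infAx

end GWA
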