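import Pool.Agent.Helper15.WA.Mod

/-!
# Representations of points of the Kummer surface and the birational involution
(adapted from Helper9.KumWA.App and Helper9.KumWA.Iota)
-/

namespace GWA

open Topology

/-- a representation of a point of the surface by two points of `E d` -/
def Rep {K : Type*} [Field K] (u : Pt K) (d : K) (P Q : E d) : Prop :=
  d ≠ 0 ∧ P ≠ 0 ∧ Q ≠ 0 ∧ u.x * d = xc P ∧ u.y * d = xc Q ∧ u.z * d ^ 3 = yc P * yc Q

section field

variable {K : Type*} [Field K]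

theorem yc_sq_ff {d : K} (hd : d ≠ 0) (P : E d) : yc P ^ 2 = d ^ 3 * ff (xc P / d) := by
  rw [curve_eq, ff]; field_simp

theorem Rep.yc_ne {u : Pt K} {d : K} {P Q : E d} (h : Rep u d P Q) : yc P ≠ 0 ∧ yc Q ≠ 0 := by
  obtain ⟨hd, -, -, -, -, hz⟩ := h
  have h0 : u.z * d ^ 3 ≠ 0 := mul_ne_zero u.hz (pow_ne_zero _ hd)
  rw [hz] at h0
  exact ⟨left_ne_zero_of_mul h0, right_ne_zero_of_mul h0⟩

theorem Rep.ffx {u : Pt K} {d : K} {P Q : E d} (h : Rep u d P Q) :
    d ^ 3 * ff u.x = yc P ^ 2 := by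
  rw [yc_sq_ff h.1, ← h.2.2.2.1, mul_div_cancel_right₀ _ h.1]

theorem Rep.ffy {u : Pt K} {d : K} {P Q : E d} (h : Rep u d P Q) :
    d ^ 3 * ff u.y = yc Q ^ 2 := by
  rw [yc_sq_ff h.1, ← h.2.2.2.2.1, mul_div_cancel_right₀ _ h.1]

/-- the point of the surface given by two points of `E d` -/
def mkPt {d : K} (hd : d ≠ 0) (P Q : E d) (hyP : yc P ≠ 0) (hyQ : yc Q ≠ 0) : Pt K :=
  ⟨(xc P / d, xc Q / d, yc P * yc Q / d ^ 3), by
    refine ⟨?_, ?_⟩
    · change (yc P * yc Q / d ^ 3) ^ 2 = ff (xc P / d) * ff (xc Q / d)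
      have h1 := yc_sq_ff hd P
      have h2 := yc_sq_ff hd Q
      rw [div_pow, mul_pow, h1, h2]
      field_simp
    · exact div_ne_zero (mul_ne_zero hyP hyQ) (pow_ne_zero _ hd)⟩

theorem rep_mkPt {d : K} (hd : d ≠ 0) {P Q : E d} (hyP : yc P ≠ 0) (hyQ : yc Q ≠ 0) :
    Rep (mkPt hd P Q hyP hyQ) d P Q := by
  refine ⟨hd, ?_, ?_, ?_, ?_, ?_⟩
  · rintro rfl; exact hyP yc_zero
  · rintro rfl; exact hyQ yc_zero
  · change xc P / d * d = xc P; field_simp
  · change xc Q / d * d = xc Q; field_simp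
  · change yc P * yc Q / d ^ 3 * d ^ 3 = _; field_simp

theorem Rep.ext {u v : Pt K} {d : K} {P Q : E d} (h : Rep u d P Q) (h' : Rep v d P Q) : u = v := by
  have hd := h.1
  apply Pt.ext
  · exact mul_right_cancel₀ hd (h.2.2.2.1.trans h'.2.2.2.1.symm)
  · exact mul_right_cancel₀ hd (h.2.2.2.2.1.trans h'.2.2.2.2.1.symm)
  · exact mul_right_cancel₀ (pow_ne_zero 3 hd) (h.2.2.2.2.2.trans h'.2.2.2.2.2.symm)

/-- every point of the surface has a representation -/
theorem exists_rep [NeZero (2 : K)] (u : Pt K) : ∃ (d : Kˣ) (P Q : E (d : K)), Rep u d P Q := by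
  have hd : ff u.x ≠ 0 := u.hfx
  have h1 : (ff u.x ^ 2) ^ 2 = (ff u.x * u.x) ^ 3 - ff u.x ^ 2 * (ff u.x * u.x) := by
    have : ff u.x = u.x ^ 3 - u.x := rfl
    linear_combination ff u.x ^ 3 * this
  have h2 : (ff u.x * u.z) ^ 2 = (ff u.x * u.y) ^ 3 - ff u.x ^ 2 * (ff u.x * u.y) := by
    have h3 := u.eqn
    have : ff u.y = u.y ^ 3 - u.y := rfl
    rw [mul_pow, h3, this]; ring
  refine ⟨Units.mk0 _ hd, mkP hd _ _ h1, mkP hd _ _ h2, hd, mkP_ne _ _ _ _, mkP_ne _ _ _ _,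
    ?_, ?_, ?_⟩
  · change u.x * ff u.x = ff u.x * u.x; ring
  · change u.y * ff u.x = ff u.x * u.y; ring
  · change u.z * ff u.x ^ 3 = ff u.x ^ 2 * (ff u.x * u.z); ring

/-- denominator of the involution -/
def sD (x y : K) : K := 3 * x * y - x - y - 1

/-- numerator of the involution -/
def sS (x y : K) : K := x + y + 1

/-- the quadratic form of the involution -/
def sQ (x y : K) : K := (2 * x - y - 1) * (x - 2 * y + 1)

/-- domain of the involution -/
def IOK (u : Pt K) : Prop := sD u.x u.y ≠ 0 ∧ sS u.x u.y ≠ 0 ∧ sQ u.x u.y ≠ 0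

/-- scaling factor -/
def rho (x y : K) : K := -2 * sS x y / sD x y

/-- scaling factor of z -/
def kap (x y : K) : K := -4 * sS x y * sQ x y / sD x y ^ 3

/-- first coordinate of the image -/
def sx (x y : K) : K := 1 + rho x y * (x - 1)

/-- second coordinate of the image -/
def sy (x y : K) : K := 1 + rho x y * (y - 1)

theorem sD_comm (x y : K) : sD x y = sD y x := by unfold sD; ring

theorem sS_comm (x y : K) : sS x y = sS y x := by unfold sS; ring

theorem sQ_comm (x y : K) : sQ x y = sQ y x := by unfold sQ; ring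

theorem rho_comm (x y : K) : rho x y = rho y x := by
  unfold rho; rw [sD_comm, sS_comm]

theorem kap_comm (x y : K) : kap x y = kap y x := by
  unfold kap; rw [sD_comm, sQ_comm, sS_comm]

theorem sy_eq (x y : K) : sy x y = sx y x := by unfold sy sx; rw [rho_comm]

theorem ff_sx {x y : K} (hD : sD x y ≠ 0) : ff (sx x y) = kap x y * ff x := by
  unfold sx rho kap
  have h1 : sD x y = 3 * x * y - x - y - 1 := rfl
  have h2 : sQ x y = (2 * x - y - 1) * (x - 2 * y + 1) := rfl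
  have h3 : sS x y = x + y + 1 := rfl
  generalize hDD : sD x y = D at *
  unfold ff
  rw [h2, h3]
  field_simp
  subst h1
  ring

theorem ff_sy {x y : K} (hD : sD x y ≠ 0) : ff (sy x y) = kap x y * ff y := by
  rw [sy_eq, kap_comm]
  exact ff_sx (by rwa [sD_comm])

theorem sD_s {x y : K} (hD : sD x y ≠ 0) :
    sD (sx x y) (sy x y) = rho x y * (2 * sQ x y / sD x y) := by
  unfold sx sy rho
  have h1 : sD x y = 3 * x * y - x - y - 1 := rfl
  have h2 : sQ x y = (2 * x - y - 1) * (x - 2 * y + 1) := rfl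
  have h3 : sS x y = x + y + 1 := rfl
  generalize hDD : sD x y = D at *
  rw [h2, h3]
  unfold sD
  field_simp
  subst h1
  ring

theorem sS_s {x y : K} (hD : sD x y ≠ 0) : sS (sx x y) (sy x y) = - sQ x y / sD x y := by
  unfold sx sy rho
  have h1 : sD x y = 3 * x * y - x - y - 1 := rfl
  have h2 : sQ x y = (2 * x - y - 1) * (x - 2 * y + 1) := rfl
  have h3 : sS x y = x + y + 1 := rfl
  generalize hDD : sD x y = D at *
  rw [h2, h3]
  unfold sS
  field_simp
  subst h1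
  ring

theorem sQ_s (x y : K) : sQ (sx x y) (sy x y) = rho x y ^ 2 * sQ x y := by
  unfold sQ sx sy; ring

variable [NeZero (2 : K)]

theorem four_ne' : (4 : K) ≠ 0 := by
  have : (4 : K) = 2 * 2 := by norm_num
  rw [this]
  exact mul_ne_zero two_ne_zero two_ne_zero

theorem rho_ne {x y : K} (hD : sD x y ≠ 0) (hs : sS x y ≠ 0) : rho x y ≠ 0 :=
  div_ne_zero (mul_ne_zero (neg_ne_zero.2 two_ne_zero) hs) hD

theorem kap_ne {x y : K} (hD : sD x y ≠ 0) (hs : sS x y ≠ 0) (hq : sQ x y ≠ 0) :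
    kap x y ≠ 0 :=
  div_ne_zero (mul_ne_zero (mul_ne_zero (neg_ne_zero.2 four_ne') hs) hq) (pow_ne_zero _ hD)

theorem rho_rho {x y : K} (hD : sD x y ≠ 0) (hs : sS x y ≠ 0) (hq : sQ x y ≠ 0) :
    rho (sx x y) (sy x y) * rho x y = 1 := by
  have hr := rho_ne hD hs
  have h1 : rho (sx x y) (sy x y) = -2 * sS (sx x y) (sy x y) / sD (sx x y) (sy x y) := rfl
  have h2 : (2 : K) ≠ 0 := two_ne_zero
  rw [h1, sS_s hD, sD_s hD]
  field_simp

theorem kap_kap {x y : K} (hD : sD x y ≠ 0) (hs : sS x y ≠ 0) (hq : sQ x y ≠ 0) :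
    kap (sx x y) (sy x y) * kap x y = 1 := by
  have hr := rho_ne hD hs
  have h0 : (2 : K) ≠ 0 := two_ne_zero
  have h1 : kap (sx x y) (sy x y) = -4 * sS (sx x y) (sy x y) * sQ (sx x y) (sy x y) /
        sD (sx x y) (sy x y) ^ 3 := rfl
  rw [h1, sS_s hD, sD_s hD, sQ_s]
  have h2 : kap x y = -4 * sS x y * sQ x y / sD x y ^ 3 := rfl
  have h3 : rho x y * sD x y = -2 * sS x y := by
    unfold rho; field_simp
  rw [h2]
  field_simp
  linear_combination (-8) * h3

/-- the involution -/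
def iota (u : Pt K) (h : IOK u) : Pt K :=
  ⟨(sx u.x u.y, sy u.x u.y, kap u.x u.y * u.z), by
    refine ⟨?_, mul_ne_zero (kap_ne h.1 h.2.1 h.2.2) u.hz⟩
    change (kap u.x u.y * u.z) ^ 2 = ff (sx u.x u.y) * ff (sy u.x u.y)
    rw [ff_sx h.1, ff_sy h.1, mul_pow, u.eqn]; ring⟩

@[simp] theorem iota_x (u : Pt K) (h : IOK u) : (iota u h).x = sx u.x u.y := rfl

@[simp] theorem iota_y (u : Pt K) (h : IOK u) : (iota u h).y = sy u.x u.y := rfl

@[simp] theorem iota_z (u : Pt K) (h : IOK u) : (iota u h).z = kap u.x u.y * u.z := rfl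

theorem IOK_iota (u : Pt K) (h : IOK u) : IOK (iota u h) := by
  refine ⟨?_, ?_, ?_⟩
  · rw [iota_x, iota_y, sD_s h.1]
    exact mul_ne_zero (rho_ne h.1 h.2.1) (div_ne_zero (mul_ne_zero two_ne_zero h.2.2) h.1)
  · rw [iota_x, iota_y, sS_s h.1]
    exact div_ne_zero (neg_ne_zero.2 h.2.2) h.1
  · rw [iota_x, iota_y, sQ_s]
    exact mul_ne_zero (pow_ne_zero _ (rho_ne h.1 h.2.1)) h.2.2

theorem iota_iota (u : Pt K) (h : IOK u) : iota (iota u h) (IOK_iota u h) = u := by
  have h1 := rho_rho h.1 h.2.1 h.2.2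
  have h2 := kap_kap h.1 h.2.1 h.2.2
  apply Pt.ext
  · rw [iota_x, iota_x, iota_y]
    have : sx (sx u.x u.y) (sy u.x u.y) =
      1 + rho (sx u.x u.y) (sy u.x u.y) * (rho u.x u.y * (u.x - 1)) := by
      conv_lhs => unfold sx
      unfold sx; ring
    rw [this, ← mul_assoc, h1]; ring
  · rw [iota_y, iota_x, iota_y]
    have : sy (sx u.x u.y) (sy u.x u.y) =
      1 + rho (sx u.x u.y) (sy u.x u.y) * (rho u.x u.y * (u.y - 1)) := by
      conv_lhs => unfold sy
      unfold sy; ring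
    rw [this, ← mul_assoc, h1]; ring
  · rw [iota_z, iota_x, iota_y, iota_z, ← mul_assoc, h2, one_mul]

/-- the graph of the involution on representations -/
def SRel (t t' : Σ d : Kˣ, E (d : K) × E (d : K)) : Prop :=
  ∃ (u : Pt K) (h : IOK u), Rep u t.1 t.2.1 t.2.2 ∧ Rep (iota u h) t'.1 t'.2.1 t'.2.2

theorem SRel.symm {t t' : Σ d : Kˣ, E (d : K) × E (d : K)} (h : SRel t t') : SRel t' t := by
  obtain ⟨u, h, h1, h2⟩ := h
  refine ⟨iota u h, IOK_iota u h, h2, ?_⟩
  rw [iota_iota]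
  exact h1

end field

/-! ### compatibility with field homomorphisms -/

section map

variable {K L : Type*} [Field K] [Field L] (φ : K →+* L)

theorem map_sD (x y : K) : φ (sD x y) = sD (φ x) (φ y) := by simp [sD, map_ofNat]

theorem map_sS (x y : K) : φ (sS x y) = sS (φ x) (φ y) := by simp [sS]

theorem map_sQ (x y : K) : φ (sQ x y) = sQ (φ x) (φ y) := by simp [sQ, map_ofNat]

theorem map_rho (x y : K) : φ (rho x y) = rho (φ x) (φ y) := by
  simp [rho, map_sD, map_sS, map_ofNat]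

theorem map_kap (x y : K) : φ (kap x y) = kap (φ x) (φ y) := by
  simp [kap, map_sD, map_sQ, map_sS, map_ofNat]

theorem IOK_map (u : Pt K) : IOK (Pt.map φ u) ↔ IOK u := by
  unfold IOK
  rw [Pt.map_x, Pt.map_y, ← map_sD, ← map_sQ, ← map_sS, map_ne_zero, map_ne_zero, map_ne_zero]

theorem iota_map [NeZero (2 : K)] [NeZero (2 : L)] (u : Pt K) (h : IOK u) :
    Pt.map φ (iota u h) = iota (Pt.map φ u) ((IOK_map φ u).2 h) := by
  apply Pt.ext
  · simp [map_rho, sx]
  · simp [map_rho, sy]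
  · simp [map_kap]

end map

end GWA
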