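import Pool.Agent.Helper15.WA.L3d

/-!
# The place above 3: conclusion
-/

namespace GWA

variable {K : Type} [NormedField K] [Algebra GaussianInt K] {π : GaussianInt}
  [NeZero (2 : K)] [DecidableEq K] {A : Set (FLD K π).Sys}

/-- sign change of the first point -/
theorem neg_mem (hA : (FLD K π).LStable A) {d : Kˣ} {P Q : E (d : K)}
    (ht : (⟨d, -P, Q⟩ : (FLD K π).Sys) ∈ A) : (⟨d, P, Q⟩ : (FLD K π).Sys) ∈ A := by
  have h3 := hA.aff (-1) 0 0 1 0 0 (by simp) _ ht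
  have : (FLD K π).aff (-1) 0 0 1 0 0 ⟨d, -P, Q⟩ = (⟨d, P, Q⟩ : (FLD K π).Sys) := by
    change (⟨d, (-1 : GaussianInt) • (-P) + (0 : GaussianInt) • Q + (0 : GaussianInt) • T d.ne_zero,
      (0 : GaussianInt) • (-P) + (1 : GaussianInt) • Q + (0 : GaussianInt) • T d.ne_zero⟩ :
        (FLD K π).Sys) = _
    simp
  rwa [this] at h3

omit [NeZero (2 : K)] [DecidableEq K] in
theorem LocHyp.n4 (h : LocHyp K π) (h2 : ¬ π ∣ 2) : ‖(4 : K)‖ = 1 := by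
  have : (4 : K) = 2 * 2 := by norm_num
  rw [this, norm_mul, h.norm_two h2, mul_one]

/-- points of `A` in a class given up to sign -/
theorem LocHyp.of_class (h : LocHyp K π) (h2 : ¬ π ∣ 2) (hA : (FLD K π).LStable A) {d : Kˣ}
    {P₀ : E (d : K)} (hP₀ : P₀ ≠ 0) (hle : ‖nx P₀‖ ≤ 1)
    (hall : ∀ Q R : E (d : K), Q - P₀ ∈ nb π (d : K) 0 →
        R - T d.ne_zero ∈ nb π (d : K) 0 → ¬ cge1 π Q R →
        (⟨d, Q, R⟩ : (FLD K π).Sys) ∈ A)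
    {Q R : E (d : K)} (hQ0 : Q ≠ 0) (hQle : ‖nx Q‖ ≤ 1) (hx : ‖nx Q - nx P₀‖ < 1)
    (hR : R - T d.ne_zero ∈ nb π (d : K) 0) (hc : ¬ cge1 π Q R) :
    (⟨d, Q, R⟩ : (FLD K π).Sys) ∈ A := by
  rcases h.res_diff h2 d.ne_zero hQ0 hP₀ hQle hle hx with h3 | h3
  · exact hall Q R h3 hR hc
  · apply neg_mem hA
    apply hall _ _ _ hR
    · intro h4
      apply hc
      refine ⟨?_, h4.2⟩
      have := neg_mem_nbh h4.1
      rwa [smul_neg, neg_neg] at this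
    · have : -Q - P₀ = -(Q + P₀) := by abel
      rw [this]
      exact neg_mem_nbh h3

/-- the link at the place above 3 -/
theorem LocHyp.link_three (h : LocHyp K π) (hodd : ¬ π ∣ 2) (hA : (FLD K π).LStable A)
    (hNN : (FLD K π).NN ⊆ A) (hπq : Associated π (3 : GaussianInt)) :
    ∃ c : K, ‖c‖ ≤ 1 ∧ (∀ n : ℤ, ‖c - n‖ = 1) ∧ Rc A c := by
  have hI := II_sq K
  have hn3 := h.n3 hπq
  have hp0 := h.norm_pi_pos
  have hp1 := h.norm_pi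
  have hlt : ‖(3 : K)‖ < 1 := by rw [hn3]; exact hp1
  have hnz := h.nz3 hπq
  have hnII : ‖II K‖ = 1 := LocHyp.norm_II K
  have n4 := h.n4 hodd
  have h4c := h.four_coprime hodd
  have ne_of : ∀ x : K, ‖x‖ = 1 → x ≠ 0 := by rintro x hx rfl; simp at hx
  have hxn : ‖(-1 : K) - II K‖ = 1 := by
    have := hnz (-1) (-1) (by norm_num)
    rw [← this]; congr 1; push_cast; ring
  have h1mI : ‖(1 : K) - II K‖ = 1 := by
    have := hnz 1 (-1) (by norm_num)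
    rw [← this]; congr 1; push_cast; ring
  have h1pI : ‖(1 : K) + II K‖ = 1 := by
    have := hnz 1 1 (by norm_num)
    rw [← this]; congr 1; push_cast; ring
  have hdens : ∀ (t : (FLD K π).Sys) (n : ℕ),
      ∃ t', (FLD K π).close n t' t ∧ ∃ t'', (FLD K π).S t'' t' :=
    fun t n => dens_of_infinite (fun d hd n => h.nb_infinite hd n) t n
  obtain ⟨P₀, hP0, hxP, -, -, hall⟩ := h.three_gen hodd hA hNN hπq
  obtain ⟨Q₀, hQ₀0, hxQ₀, hall'⟩ := h.three_cls hodd hA hNN hπq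
  have hQ₀le : ‖nx Q₀‖ ≤ 1 := (Cg.mk' h hnII.le hxQ₀).l
  refine ⟨-1 - II K, hxn.le, ?_, ?_⟩
  · intro n
    have := hnz (-1 - n) (-1) (by norm_num)
    rw [← this]; congr 1; push_cast; ring
  intro d Q R hQ0 hx hR
  have hd := d.ne_zero
  apply hA.cl
  intro n
  obtain ⟨t', ⟨Q₁, R₁, rfl, hQ1', hR1'⟩, hS1⟩ : ∃ t' : (FLD K π).Sys,
      (∃ Q₁ R₁ : E (d : K), t' = (⟨d, Q₁, R₁⟩ : (FLD K π).Sys) ∧
      Q₁ - Q ∈ nb π (d : K) n ∧ R₁ - R ∈ nb π (d : K) n) ∧ ∃ t'', (FLD K π).S t'' t' :=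
    hdens ⟨d, Q, R⟩ n
  refine ⟨_, ?_, ⟨Q₁, R₁, rfl, hQ1', hR1'⟩⟩
  have cQ : Cg (nx Q) (-1 - II K) := Cg.mk' h hxn.le hx
  have hQnb : Q ∉ nb π (d : K) 0 := (h.not_mem_nb_iff hd).2 ⟨hQ0, cQ.l⟩
  obtain ⟨hQ10, -, hQ1le, hQ1x⟩ := h.res_conv hodd hd hQnb (h.nb_anti _ (Nat.zero_le n) hQ1')
  have cQ1 : Cg (nx Q₁) (-1 - II K) := Cg.trans h ⟨hQ1le, cQ.l, hQ1x⟩ cQ
  have hR1T : R₁ - T d.ne_zero ∈ nb π (d : K) 0 := by
    have := h.nb_add hd 0 (h.nb_anti _ (Nat.zero_le n) hR1') hR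
    rwa [sub_add_sub_cancel] at this
  have hR10 : R₁ ≠ 0 := by
    rintro rfl
    rw [zero_sub] at hR1T
    have := neg_mem_nbh hR1T
    rw [neg_neg] at this
    exact (h.T_not_mem d).1 this
  -- reduction to `d = 1`
  have hf1 : ‖ff (nx Q₁) - (1 + II K) ^ 2‖ < 1 := by
    have c1 : Cg (ff (nx Q₁)) (ff (-1 - II K)) := (cQ1.pow h 3).sub h cQ1
    have c2 : Cg (ff (-1 - II K)) ((1 + II K) ^ 2) := by
      refine Cg.mk' h (by rw [norm_pow, h1pI, one_pow]) ?_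
      have e : ff (-1 - II K) - (1 + II K) ^ 2 = 3 * (1 - II K) := by
        unfold ff; linear_combination (-II K - 4) * hI
      rw [e, norm_mul, h1mI, mul_one]
      exact hlt
    exact (c1.trans h c2).c
  obtain ⟨c, hc, hdc⟩ := h.d_sq hodd h1pI hf1
  obtain ⟨Q₂, R₂, hQ20, hR20, hxQ2, hxR2, hS2, hiff⟩ := to_one hA hc hdc Q₁ R₁ hQ10 hR10 hS1
  apply hiff.2
  have h1 := (1 : Kˣ).ne_zero (M₀ := K)
  have cQ2 : Cg (nx Q₂) (-1 - II K) := by rw [hxQ2]; exact cQ1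
  have hR2T : R₂ - T (1 : Kˣ).ne_zero ∈ nb π ((1 : Kˣ) : K) 0 := by
    rw [h.near_T_iff hodd _ hR20, hxR2]
    exact (h.near_T_iff hodd _ hR10 0).1 hR1T
  by_cases hcg : cge1 π Q₂ R₂
  swap
  · refine h.of_class hodd hA hP0 (by rw [hxP, hxn]) hall hQ20 cQ2.l ?_ hR2T hcg
    rw [hxP]; exact cQ2.c
  obtain ⟨h4Q, h4R⟩ := hcg
  -- `R₂` is very near `T`
  have hR2T1 : R₂ - T (1 : Kˣ).ne_zero ∈ nb π ((1 : Kˣ) : K) 1 := by
    apply h.nb_coprime (1 : Kˣ) h4c hR2T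
    rw [smul_sub, four_smul_T, sub_zero]; exact h4R
  have hR2x := (h.near_T_iff hodd (1 : Kˣ).ne_zero hR20 1).1 hR2T1
  -- `2 Q₂` is very near `i T`
  have hf2 : ‖ff (nx Q₂)‖ = 1 := by
    have c1 : Cg (ff (nx Q₂)) (ff (-1 - II K)) := (cQ2.pow h 3).sub h cQ2
    apply c1.norm_eq h
    have e : ff (-1 - II K) = ((3 : ℤ) : K) + ((-1 : ℤ) : K) * II K := by
      unfold ff; push_cast; linear_combination (-II K - 3) * hI
    rw [e, hnz 3 (-1) (by norm_num)]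
  obtain ⟨h22, h22x⟩ := nx_double (1 : Kˣ).ne_zero hQ20 (ne_of _ hf2)
  set x := nx Q₂ with hxdef
  have hE : (nx (Q₂ + Q₂) + 1) * (4 * ff x) = (x ^ 2 + 2 * x - 1) ^ 2 := by
    rw [add_mul, h22x]; unfold ff; ring
  have hEn : ‖nx (Q₂ + Q₂) + 1‖ = ‖x ^ 2 + 2 * x - 1‖ ^ 2 := by
    have := congrArg norm hE
    rwa [norm_mul, norm_mul, n4, hf2, mul_one, mul_one, norm_pow] at this
  have hwlt : ‖x ^ 2 + 2 * x - 1‖ < 1 := by
    have c1 : Cg (x ^ 2 + 2 * x - 1) ((-1 - II K) ^ 2 + 2 * (-1 - II K) - 1) :=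
      ((cQ2.pow h 2).add h ((Cg.two h).mul h cQ2)).sub h Cg.one
    apply c1.norm_lt h
    have e : (-1 - II K) ^ 2 + 2 * (-1 - II K) - 1 = -3 := by linear_combination hI
    rw [e, norm_neg]; exact hlt
  have h2Q0 : Q₂ + Q₂ - gi • T (1 : Kˣ).ne_zero ∈ nb π ((1 : Kˣ) : K) 0 := by
    rw [h.near_giT_iff hodd (1 : Kˣ) h22, hEn]
    have := h.lt_le hwlt
    calc ‖x ^ 2 + 2 * x - 1‖ ^ 2 ≤ ‖x ^ 2 + 2 * x - 1‖ ^ 1 :=
          pow_le_pow_of_le_one (norm_nonneg _) hwlt.le (by norm_num)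
      _ = ‖x ^ 2 + 2 * x - 1‖ := pow_one _
      _ ≤ ‖algebraMap GaussianInt K π‖ := this
      _ = _ := by simp
  have e4 : (4 : GaussianInt) • Q₂ =
      (2 : GaussianInt) • (Q₂ + Q₂ - gi • T (1 : Kˣ).ne_zero) := by
    have h5 : (4 : GaussianInt) = 2 * 2 := by norm_num
    have h6 : (2 : GaussianInt) • gi • T (1 : Kˣ).ne_zero = 0 := by
      rw [smul_comm, two_smul_T, smul_zero]
    rw [h5, mul_smul, two_smul_eq (1 : Kˣ) Q₂, smul_sub, h6, sub_zero]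
  have h2Q1 : Q₂ + Q₂ - gi • T (1 : Kˣ).ne_zero ∈ nb π ((1 : Kˣ) : K) 1 := by
    apply h.nb_coprime (1 : Kˣ) hodd h2Q0
    rw [← e4]; exact h4Q
  rw [h.near_giT_iff hodd (1 : Kˣ) h22, hEn] at h2Q1
  have hw2 : ‖x ^ 2 + 2 * x - 1‖ ≤ ‖algebraMap GaussianInt K π‖ ^ 2 := by
    by_contra hcon
    have h5 : ‖algebraMap GaussianInt K π‖ ≤ ‖x ^ 2 + 2 * x - 1‖ := by
      by_contra h6
      exact hcon (h.lt_le_n 1 (by rw [pow_one]; exact not_le.1 h6))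
    have h6 : ‖algebraMap GaussianInt K π‖ ^ 2 ≤ ‖x ^ 2 + 2 * x - 1‖ ^ 2 :=
      pow_le_pow_left₀ hp0.le h5 2
    have h7 : ‖algebraMap GaussianInt K π‖ ^ (2 * 1 + 1) < ‖algebraMap GaussianInt K π‖ ^ 2 :=
      pow_lt_pow_right_of_lt_one₀ hp0 hp1 (by norm_num)
    linarith
  -- the image
  obtain ⟨⟨d'', Q'', R''⟩, hS⟩ := hS2
  have hrel : SRel ⟨(1 : Kˣ), Q₂, R₂⟩ ⟨d'', Q'', R''⟩ := SRel.symm hS
  apply hA.sig _ _ hS
  have hel := hrel.elim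
  simp only at hel
  obtain ⟨-, -, hQ''0, hR''0, -, -, -, -, -, -, -, -, -⟩ := hel
  obtain ⟨hs1, hs2⟩ := h.three_sig hodd hrel (x₀ := -1 - II K) (n := 2) cQ2
    (by
      have := hnz (-2) (-1) (by norm_num)
      rw [← this]; congr 1; push_cast; ring)
    (by rw [← h1mI]; congr 1; ring) hR2x
  rw [← hxdef, hn3] at hs1
  have hs1' : ‖nx Q'' + x + 1‖ ≤ ‖algebraMap GaussianInt K π‖ ^ 2 := by
    refine hs1.trans ?_
    rw [← pow_succ']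
    exact pow_le_pow_of_le_one hp0.le hp1.le (by norm_num)
  have hq2 : ‖algebraMap GaussianInt K π‖ ^ 2 < ‖algebraMap GaussianInt K π‖ := by
    have := pow_lt_pow_right_of_lt_one₀ hp0 hp1 (show 1 < 2 by norm_num)
    rwa [pow_one] at this
  have cQ'' : Cg (nx Q'') (II K) := by
    refine Cg.mk' h hnII.le ?_
    have e : nx Q'' - II K = (nx Q'' + x + 1) - (x - (-1 - II K)) := by ring
    rw [e]
    exact (h.norm_sub_le _ _).trans_lt (max_lt (hs1'.trans_lt (hq2.trans hp1)) cQ2.c)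
  have hf'' : ‖ff (nx Q'') - (1 - II K) ^ 2‖ < 1 := by
    have c1 : Cg (ff (nx Q'')) (ff (II K)) := (cQ''.pow h 3).sub h cQ''
    have e : ff (II K) = (1 - II K) ^ 2 := by unfold ff; linear_combination (II K - 1) * hI
    rw [← e]
    exact c1.c
  obtain ⟨c'', hc'', hdc''⟩ := h.d_sq hodd h1mI hf''
  obtain ⟨Q₃, R₃, hQ30, hR30, hxQ3, hxR3, -, hiff3⟩ :=
    to_one hA hc'' hdc'' Q'' R'' hQ''0 hR''0 ⟨_, hrel⟩
  apply hiff3.2
  have cQ3 : Cg (nx Q₃) (II K) := by rw [hxQ3]; exact cQ''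
  refine h.of_class hodd hA hQ₀0 hQ₀le hall' hQ30 cQ3.l ?_ ?_ ?_
  · exact (cQ3.trans h (Cg.mk' h hnII.le hxQ₀).symm).c
  · rw [h.near_T_iff hodd _ hR30, hxR3, hs2]
    exact (h.near_T_iff hodd _ hR20 0).1 hR2T
  · rintro ⟨h5, -⟩
    have hf3 : ‖ff (nx Q₃)‖ = 1 := by
      have c1 : Cg (ff (nx Q₃)) (ff (II K)) := (cQ3.pow h 3).sub h cQ3
      apply c1.norm_eq h
      have e : ff (II K) = (-2) * II K := by unfold ff; linear_combination II K * hI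
      rw [e, norm_mul, norm_neg, h.norm_two hodd, hnII, one_mul]
    obtain ⟨h32, h32x⟩ := nx_double (1 : Kˣ).ne_zero hQ30 (ne_of _ hf3)
    have hz : ‖nx Q₃ ^ 2 + 1‖ = ‖algebraMap GaussianInt K π‖ := by
      have e : nx Q₃ ^ 2 + 1 = 3 + ((x ^ 2 + 2 * x - 1) +
          (nx Q'' + x + 1) * (nx Q'' - (x + 1))) := by rw [hxQ3]; ring
      have h6 : ‖(x ^ 2 + 2 * x - 1) + (nx Q'' + x + 1) * (nx Q'' - (x + 1))‖ < ‖(3 : K)‖ := by
        rw [hn3]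
        refine lt_of_le_of_lt ((h.ultra _ _).trans (max_le hw2 ?_)) hq2
        rw [norm_mul]
        have h7 : ‖nx Q'' - (x + 1)‖ ≤ 1 :=
          (h.norm_sub_le _ _).trans (max_le cQ''.l ((h.ultra _ _).trans (max_le cQ2.l (by simp))))
        calc _ ≤ ‖nx Q'' + x + 1‖ * 1 := by gcongr
          _ = ‖nx Q'' + x + 1‖ := mul_one _
          _ ≤ _ := hs1'
      rw [e, h.norm_sum_eq h6, hn3]
    have hz2 : ‖nx (Q₃ + Q₃)‖ = ‖algebraMap GaussianInt K π‖ ^ 2 := by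
      have := congrArg norm h32x
      rwa [norm_mul, norm_mul, n4, hf3, mul_one, mul_one, norm_pow, hz] at this
    have h6 : Q₃ + Q₃ - T₀ (1 : Kˣ).ne_zero ∈ nb π ((1 : Kˣ) : K) 0 := by
      rw [h.near_T₀_iff (1 : Kˣ).ne_zero h32, hz2]
      exact pow_le_pow_of_le_one hp0.le hp1.le (by norm_num)
    have e4' : (4 : GaussianInt) • Q₃ = (2 : GaussianInt) • (Q₃ + Q₃ - T₀ (1 : Kˣ).ne_zero) := by
      have : (4 : GaussianInt) = 2 * 2 := by norm_num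
      rw [this, mul_smul, two_smul_eq (1 : Kˣ) Q₃, smul_sub, two_smul_T₀, sub_zero]
    rw [e4'] at h5
    have h7 := h.nb_coprime (1 : Kˣ) hodd h6 h5
    rw [h.near_T₀_iff (1 : Kˣ).ne_zero h32, hz2] at h7
    have h8 : ‖algebraMap GaussianInt K π‖ ^ (2 * 1 + 1) < ‖algebraMap GaussianInt K π‖ ^ 2 :=
      pow_lt_pow_right_of_lt_one₀ hp0 hp1 (by norm_num)
    linarith

end GWA
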