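import Pool.Agent.Helper9.GWA.FINB
import Pool.Agent.Helper26.GWA.RESB
import Pool.Agent.Helper67.GWA.TRA
import Pool.Agent.Helper22.GWA.DLIM
import Pool.Agent.Helper37.GWA.RSD

/-!
# Moves inside a class (used for the place above 3)
-/

namespace GWA

variable {K : Type} [NormedField K] [Algebra GaussianInt K] [NeZero (2 : K)] [DecidableEq K]
  {π : GaussianInt} {A : Set (FLD K π).Sys}

theorem LocHyp.nb_sub (h : LocHyp K π) {d : K} (hd : d ≠ 0) (n : ℕ) {P Q : E d}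
    (hP : P ∈ nb π d n) (hQ : Q ∈ nb π d n) : P - Q ∈ nb π d n := by
  rw [sub_eq_add_neg]
  exact h.nb_add hd n hP (neg_mem_nbh hQ)

theorem LocHyp.nb_anti (h : LocHyp K π) (d : K) {m n : ℕ} (hmn : m ≤ n) :
    nb π d n ⊆ nb π d m := nbh_anti h.one_lt_inv.le d hmn

/-- existence of an image under the involution -/
theorem exists_image {K : Type*} [Field K] [NeZero (2 : K)] {d : Kˣ} {P Q : E (d : K)}
    (hP : ff (nx P) ≠ 0) (hQ : ff (nx Q) ≠ 0)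
    (hD : sD (nx P) (nx Q) ≠ 0) (hS : sS (nx P) (nx Q) ≠ 0) (hQq : sQ (nx P) (nx Q) ≠ 0) :
    ∃ (d' : Kˣ) (P' Q' : E (d' : K)), SRel ⟨d, P, Q⟩ ⟨d', P', Q'⟩ := by
  have hd := d.ne_zero
  have hyP := (yc_ne_iff hd P).2 hP
  have hyQ := (yc_ne_iff hd Q).2 hQ
  have hI : IOK (mkPt hd P Q hyP hyQ) := ⟨hD, hS, hQq⟩
  obtain ⟨d', P', Q', h'⟩ := exists_rep (iota _ hI)
  exact ⟨d', P', Q', _, hI, rep_mkPt hd hyP hyQ, h'⟩

/-- move the first point -/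
theorem LocHyp.move_left (h : LocHyp K π) (h2 : ¬ π ∣ 2) (hA : (FLD K π).LStable A) {d : Kˣ}
    {P Q P' : E (d : K)} (ht : (⟨d, P, Q⟩ : (FLD K π).Sys) ∈ A)
    (hQ0 : (4 : GaussianInt) • Q ∈ nb π (d : K) 0) (hQ1 : (4 : GaussianInt) • Q ∉ nb π (d : K) 1)
    (hP : P' - P ∈ nb π (d : K) 0) : (⟨d, P', Q⟩ : (FLD K π).Sys) ∈ A := by
  apply hA.cl
  intro n
  obtain ⟨u, hu⟩ := h.nb_gen d 0 hQ0 hQ1 hP n
  have h3 := hA.aff 1 (u * 4) 0 1 0 0 (by simp) _ ht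
  refine ⟨_, h3, P + (u * 4) • Q, Q, ?_, ?_, ?_⟩
  · change (⟨d, (1 : GaussianInt) • P + (u * 4) • Q + (0 : GaussianInt) • T d.ne_zero,
      (0 : GaussianInt) • P + (1 : GaussianInt) • Q + (0 : GaussianInt) • T d.ne_zero⟩ :
        (FLD K π).Sys) = _
    simp
  · change P + (u * 4) • Q - P' ∈ nb π (d : K) n
    have : P + (u * 4) • Q - P' = - (P' - P - u • (4 : GaussianInt) • Q) := by
      rw [mul_smul]; abel
    rw [this]
    exact neg_mem_nbh hu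
  · change Q - Q ∈ nb π (d : K) n
    rw [sub_self]
    exact zero_mem_nbh _ _ _

/-- swap the two points -/
theorem swap_mem (hA : (FLD K π).LStable A) {d : Kˣ} {P Q : E (d : K)}
    (ht : (⟨d, P, Q⟩ : (FLD K π).Sys) ∈ A) : (⟨d, Q, P⟩ : (FLD K π).Sys) ∈ A := by
  have h3 := hA.aff 0 1 1 0 0 0 (by simp) _ ht
  have : (FLD K π).aff 0 1 1 0 0 0 ⟨d, P, Q⟩ = (⟨d, Q, P⟩ : (FLD K π).Sys) := by
    change (⟨d, (0 : GaussianInt) • P + (1 : GaussianInt) • Q + (0 : GaussianInt) • T d.ne_zero,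
      (1 : GaussianInt) • P + (0 : GaussianInt) • Q + (0 : GaussianInt) • T d.ne_zero⟩ :
        (FLD K π).Sys) = _
    simp
  rwa [this] at h3

theorem LocHyp.move_right (h : LocHyp K π) (h2 : ¬ π ∣ 2) (hA : (FLD K π).LStable A) {d : Kˣ}
    {P Q Q' : E (d : K)} (ht : (⟨d, P, Q⟩ : (FLD K π).Sys) ∈ A)
    (hP0 : (4 : GaussianInt) • P ∈ nb π (d : K) 0) (hP1 : (4 : GaussianInt) • P ∉ nb π (d : K) 1)
    (hQ : Q' - Q ∈ nb π (d : K) 0) : (⟨d, P, Q'⟩ : (FLD K π).Sys) ∈ A :=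
  swap_mem hA (h.move_left h2 hA (swap_mem hA ht) hP0 hP1 hQ)

theorem LocHyp.four_coprime (h : LocHyp K π) (h2 : ¬ π ∣ 2) : ¬ π ∣ 4 := by
  intro h4
  have : (4 : GaussianInt) = 2 * 2 := by norm_num
  rw [this] at h4
  rcases h.prime.dvd_or_dvd h4 with h5 | h5 <;> exact h2 h5

/-- all pairs of content zero in one class are equivalent -/
theorem LocHyp.orbit (h : LocHyp K π) (h2 : ¬ π ∣ 2) (hA : (FLD K π).LStable A) {d : Kˣ}
    {P Q P' Q' : E (d : K)} (ht : (⟨d, P, Q⟩ : (FLD K π).Sys) ∈ A)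
    (hP0 : (4 : GaussianInt) • P ∈ nb π (d : K) 0) (hQ0 : (4 : GaussianInt) • Q ∈ nb π (d : K) 0)
    (hc : ¬ cge1 π P Q) (hP : P' - P ∈ nb π (d : K) 0) (hQ : Q' - Q ∈ nb π (d : K) 0)
    (hc' : ¬ cge1 π P' Q') : (⟨d, P', Q'⟩ : (FLD K π).Sys) ∈ A := by
  have h4 := h.four_coprime h2
  have hd := d.ne_zero
  -- an element of level exactly zero
  obtain ⟨η, hη0, hη1⟩ : ∃ η ∈ nb π (d : K) 0, η ∉ nb π (d : K) 1 := by
    unfold cge1 at hc
    by_cases h5 : (4 : GaussianInt) • P ∈ nb π (d : K) 1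
    · exact ⟨_, hQ0, fun h6 => hc ⟨h5, h6⟩⟩
    · exact ⟨_, hP0, h5⟩
  have h4η : (4 : GaussianInt) • η ∉ nb π (d : K) 1 := fun h5 => hη1 (h.nb_coprime d h4 hη0 h5)
  have key : ∀ R : E (d : K), ∃ R₁ : E (d : K), R₁ - R ∈ nb π (d : K) 0 ∧
      (4 : GaussianInt) • R₁ ∉ nb π (d : K) 1 := by
    intro R
    by_cases h5 : (4 : GaussianInt) • R ∈ nb π (d : K) 1
    · refine ⟨R + η, by rwa [add_sub_cancel_left], fun h6 => h4η ?_⟩
      have : (4 : GaussianInt) • η = (4 : GaussianInt) • (R + η) - (4 : GaussianInt) • R := by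
        rw [smul_add]; abel
      rw [this]
      exact h.nb_sub hd 1 h6 h5
    · exact ⟨R, by rw [sub_self]; exact zero_mem_nbh _ _ _, h5⟩
  have tr4 : ∀ R R₁ : E (d : K), (4 : GaussianInt) • R ∈ nb π (d : K) 0 →
      R₁ - R ∈ nb π (d : K) 0 → (4 : GaussianInt) • R₁ ∈ nb π (d : K) 0 := by
    intro R R₁ h5 h6
    have : (4 : GaussianInt) • R₁ = (4 : GaussianInt) • (R₁ - R) + (4 : GaussianInt) • R := by
      rw [smul_sub]; abel
    rw [this]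
    exact h.nb_add hd 0 (h.nb_smul d 0 4 h6) h5
  obtain ⟨P₁, hP1, hP1'⟩ := key P
  obtain ⟨Q₁, hQ1, hQ1'⟩ := key Q
  have hP'0 := tr4 _ _ hP0 hP
  have hQ'0 := tr4 _ _ hQ0 hQ
  have hP10 := tr4 _ _ hP0 hP1
  have hQ10 := tr4 _ _ hQ0 hQ1
  have e1 : P' - P₁ ∈ nb π (d : K) 0 := by
    have : P' - P₁ = (P' - P) - (P₁ - P) := by abel
    rw [this]; exact h.nb_sub hd 0 hP hP1
  have e2 : Q' - Q₁ ∈ nb π (d : K) 0 := by
    have : Q' - Q₁ = (Q' - Q) - (Q₁ - Q) := by abel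
    rw [this]; exact h.nb_sub hd 0 hQ hQ1
  unfold cge1 at hc hc'
  by_cases hQc : (4 : GaussianInt) • Q ∈ nb π (d : K) 1
  · have hPc : (4 : GaussianInt) • P ∉ nb π (d : K) 1 := fun h5 => hc ⟨h5, hQc⟩
    by_cases hQc' : (4 : GaussianInt) • Q' ∈ nb π (d : K) 1
    · have hPc' : (4 : GaussianInt) • P' ∉ nb π (d : K) 1 := fun h5 => hc' ⟨h5, hQc'⟩
      have s1 := h.move_right h2 hA ht hP0 hPc hQ1
      have s2 := h.move_left h2 hA s1 hQ10 hQ1' hP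
      exact h.move_right h2 hA s2 hP'0 hPc' e2
    · have s1 := h.move_right h2 hA ht hP0 hPc hQ
      exact h.move_left h2 hA s1 hQ'0 hQc' hP
  · by_cases hPc' : (4 : GaussianInt) • P' ∈ nb π (d : K) 1
    · have hQc' : (4 : GaussianInt) • Q' ∉ nb π (d : K) 1 := fun h5 => hc' ⟨hPc', h5⟩
      have s1 := h.move_left h2 hA ht hQ0 hQc hP1
      have s2 := h.move_right h2 hA s1 hP10 hP1' hQ
      exact h.move_left h2 hA s2 hQ'0 hQc' e1
    · have s1 := h.move_left h2 hA ht hQ0 hQc hP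
      exact h.move_right h2 hA s1 hP'0 hPc' hQ

end GWA
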