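import Pool.Agent.Helper15.WA.L3a
import Pool.Agent.Helper15.WA.Cg

/-!
# The place above 3
-/

namespace GWA

variable {K : Type} [NormedField K] [Algebra GaussianInt K] {π : GaussianInt}

/-- norms of `a + b i` at the place above 3 -/
theorem LocHyp.nz3 (h : LocHyp K π) (hπ : Associated π (3 : GaussianInt)) (a b : ℤ)
    (hab : ¬ ((3 : ℤ) ∣ a ∧ (3 : ℤ) ∣ b)) : ‖(a : K) + b * II K‖ = 1 := by
  have h1 : ¬ π ∣ (⟨a, b⟩ : GaussianInt) := by
    rw [hπ.dvd_iff_dvd_left]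
    rintro ⟨c, hc⟩
    apply hab
    have e1 := congrArg Zsqrtd.re hc
    have e2 := congrArg Zsqrtd.im hc
    simp at e1 e2
    exact ⟨⟨_, e1⟩, ⟨_, e2⟩⟩
  have h2 := h.norm_eq_one h1
  rwa [LocHyp.algebraMap_eq] at h2

theorem LocHyp.n3 (h : LocHyp K π) (hπ : Associated π (3 : GaussianInt)) :
    ‖(3 : K)‖ = ‖algebraMap GaussianInt K π‖ := by
  obtain ⟨u, hu⟩ := hπ
  have h1 : ‖algebraMap GaussianInt K (u : GaussianInt)‖ = 1 := by
    apply h.norm_eq_one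
    intro h2
    exact h.prime.not_isUnit (isUnit_of_dvd_unit h2 u.isUnit)
  have h3 := congrArg (fun x => ‖algebraMap GaussianInt K x‖) hu
  simp only [map_mul, norm_mul, h1, mul_one] at h3
  rw [h3, map_ofNat]

/-- squares near units -/
theorem LocHyp.sqrt_near (h : LocHyp K π) (h2 : ¬ π ∣ 2) {u s : K} (hs : ‖s‖ = 1)
    (hus : ‖u - s ^ 2‖ < 1) : ∃ t : K, t ^ 2 = u ∧ t ≠ 0 := by
  have hs0 : s ≠ 0 := by rintro rfl; simp at hs
  have h4 : ‖(4 : K)‖ = 1 := by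
    have : (4 : K) = 2 * 2 := by norm_num
    rw [this, norm_mul, h.norm_two h2, mul_one]
  obtain ⟨y, hy, -⟩ := h.sqrt (x := u / s ^ 2) (by
    rw [h4]
    have e : u / s ^ 2 - 1 = (u - s ^ 2) / s ^ 2 := by field_simp
    rw [e, norm_div, norm_pow, hs, one_pow, div_one]
    exact hus)
  have hu : u ≠ 0 := by
    rintro rfl
    rw [zero_sub, norm_neg, norm_pow, hs, one_pow] at hus
    exact lt_irrefl _ hus
  refine ⟨y * s, ?_, ?_⟩
  · rw [mul_pow, hy]; field_simp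
  · apply mul_ne_zero _ hs0
    rintro rfl
    have : u / s ^ 2 = 0 := by rw [← hy]; ring
    exact (div_ne_zero hu (pow_ne_zero 2 hs0)) this

variable [NeZero (2 : K)] [DecidableEq K]

omit [NeZero (2 : K)] [DecidableEq K] in
/-- the twist is trivial if `f(x)` is near the square of a unit -/
theorem LocHyp.d_sq (h : LocHyp K π) (h2 : ¬ π ∣ 2) {d : Kˣ} {P : E (d : K)} {s : K}
    (hs : ‖s‖ = 1) (hus : ‖ff (nx P) - s ^ 2‖ < 1) : ∃ c : K, c ≠ 0 ∧ (d : K) = c ^ 2 := by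
  obtain ⟨t, ht, ht0⟩ := h.sqrt_near h2 hs hus
  have h3 := sq_ff_nx d.ne_zero P
  have hf : ff (nx P) ≠ 0 := by rw [← ht]; exact pow_ne_zero 2 ht0
  have hy : yc P ≠ 0 := (yc_ne_iff d.ne_zero P).2 hf
  refine ⟨yc P / d / t, div_ne_zero (div_ne_zero hy d.ne_zero) ht0, ?_⟩
  rw [div_pow, h3, ← ht]
  field_simp

variable {A : Set (FLD K π).Sys}

/-- reduction to the trivial twist -/
theorem to_one (hA : (FLD K π).LStable A) {d : Kˣ} {c : K} (hc : c ≠ 0)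
    (hd : (d : K) = c ^ 2) (P Q : E (d : K)) (hP : P ≠ 0) (hQ : Q ≠ 0)
    (hS : ∃ t' : (FLD K π).Sys, (FLD K π).S t' ⟨d, P, Q⟩) :
    ∃ P' Q' : E ((1 : Kˣ) : K), P' ≠ 0 ∧ Q' ≠ 0 ∧ nx P' = nx P ∧ nx Q' = nx Q ∧
      (∃ t' : (FLD K π).Sys, (FLD K π).S t' ⟨(1 : Kˣ), P', Q'⟩) ∧
      ((⟨d, P, Q⟩ : (FLD K π).Sys) ∈ A ↔ (⟨(1 : Kˣ), P', Q'⟩ : (FLD K π).Sys) ∈ A) := by
  have hd1 : (RingHom.id K) (d : K) = ((1 : Kˣ) : K) * c ^ 2 := by
    rw [RingHom.id_apply, hd, Units.val_one, one_mul]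
  have hc' : c⁻¹ ≠ 0 := inv_ne_zero hc
  have hd2 : (RingHom.id K) ((1 : Kˣ) : K) = (d : K) * c⁻¹ ^ 2 := by
    rw [RingHom.id_apply, hd, Units.val_one]; field_simp
  have hback : ∀ R : E (d : K), R ≠ 0 → tr (RingHom.id K) hc' d.ne_zero hd2
      (tr (RingHom.id K) hc (1 : Kˣ).ne_zero hd1 R) = R := by
    intro R hR
    apply pt_ext (tr_ne _ _ _ _ (tr_ne _ _ _ _ hR)) hR
    · rw [xc_tr, xc_tr, RingHom.id_apply, RingHom.id_apply]; field_simp
    · rw [yc_tr, yc_tr, RingHom.id_apply, RingHom.id_apply]; field_simp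
  have hS' : ∃ t' : (FLD K π).Sys, (FLD K π).S t' ⟨(1 : Kˣ),
      tr (RingHom.id K) hc (1 : Kˣ).ne_zero hd1 P,
      tr (RingHom.id K) hc (1 : Kˣ).ne_zero hd1 Q⟩ := by
    obtain ⟨t', ht'⟩ := hS
    have h1 : SRel ⟨d, P, Q⟩ t' := SRel.symm ht'
    exact ⟨t', (SRel.tr_left hc hd1 h1).symm⟩
  refine ⟨_, _, tr_ne _ hc (1 : Kˣ).ne_zero hd1 hP, tr_ne _ hc (1 : Kˣ).ne_zero hd1 hQ,
    nx_tr_id _ hc hd1 P, nx_tr_id _ hc hd1 Q, hS', fun ht => hA.scale_mem hc hd1 ht hS,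
    fun ht => ?_⟩
  have := hA.scale_mem hc' hd2 ht hS'
  rwa [hback P hP, hback Q hQ] at this

theorem smul_T_eq (d : Kˣ) : (1 : GaussianInt) • T d.ne_zero = T d.ne_zero := one_smul _ _

theorem four_smul_T (d : Kˣ) : (4 : GaussianInt) • T d.ne_zero = 0 := by
  have : (4 : GaussianInt) = 2 * 2 := by norm_num
  rw [this, mul_smul, two_smul_T, smul_zero]

theorem two_smul_T₀ (d : Kˣ) : (2 : GaussianInt) • T₀ d.ne_zero = 0 := by
  rw [← lam_smul_T, smul_comm, two_smul_T, smul_zero]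

theorem two_smul_eq (d : Kˣ) (P : E (d : K)) : (2 : GaussianInt) • P = P + P := two_smul _ _

/-- near `T`, both coordinates: in `NN` -/
theorem mem_NN_TT (hNN : (FLD K π).NN ⊆ A) {d : Kˣ} {P Q : E (d : K)}
    (hP : P - T d.ne_zero ∈ nb π (d : K) 0) (hQ : Q - T d.ne_zero ∈ nb π (d : K) 0) :
    (⟨d, P, Q⟩ : (FLD K π).Sys) ∈ A := by
  apply hNN
  refine ⟨1, 1, P - T d.ne_zero, hP, Q - T d.ne_zero, hQ, ?_⟩
  change (⟨d, P, Q⟩ : (FLD K π).Sys) = ⟨d, (1 : GaussianInt) • T d.ne_zero + (P - T d.ne_zero),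
    (1 : GaussianInt) • T d.ne_zero + (Q - T d.ne_zero)⟩
  rw [one_smul, add_sub_cancel, add_sub_cancel]

/-- the starting point -/
theorem LocHyp.three_start (h : LocHyp K π) (h2 : ¬ π ∣ 2) (hA : (FLD K π).LStable A)
    (hNN : (FLD K π).NN ⊆ A) (hπ : Associated π (3 : GaussianInt)) :
    ∃ Q₀ R₀ : E ((1 : Kˣ) : K), Q₀ ≠ 0 ∧ R₀ ≠ 0 ∧ nx Q₀ = 1 + II K ∧ nx R₀ = 7 - II K ∧
      (⟨(1 : Kˣ), Q₀, R₀⟩ : (FLD K π).Sys) ∈ A := by
  have hI := II_sq K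
  have hn3 := h.n3 hπ
  have hlt : ‖(3 : K)‖ < 1 := by rw [hn3]; exact h.norm_pi
  have h30 : (3 : K) ≠ 0 := by
    intro h3
    have := h.norm_pi_pos
    rw [← hn3, h3, norm_zero] at this
    exact lt_irrefl _ this
  have hnz := h.nz3 hπ
  have e1 : ff (1 + II K) = II K - 3 := by
    unfold ff; linear_combination (II K + 3) * hI
  have e2 : ff (7 - II K) = 315 - 145 * II K := by
    unfold ff; linear_combination (21 - II K) * hI
  have s1 : ‖(1 : K) - II K‖ = 1 := by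
    have := hnz 1 (-1) (by norm_num)
    push_cast at this
    rwa [neg_mul, one_mul, ← sub_eq_add_neg] at this
  have s2 : ‖(1 : K) + II K‖ = 1 := by
    have := hnz 1 1 (by norm_num)
    push_cast at this
    rwa [one_mul] at this
  obtain ⟨t1, ht1, ht10⟩ := h.sqrt_near h2 (u := II K - 3) s1 (by
    have : II K - 3 - (1 - II K) ^ 2 = 3 * (II K - 1) := by linear_combination -hI
    rw [this, norm_mul, norm_sub_rev, s1, mul_one]
    exact hlt)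
  obtain ⟨t2, ht2, ht20⟩ := h.sqrt_near h2 (u := 315 - 145 * II K) s2 (by
    have : 315 - 145 * II K - (1 + II K) ^ 2 = 3 * (((105 : ℤ) : K) + ((-49 : ℤ) : K) * II K) := by
      push_cast; linear_combination -hI
    rw [this, norm_mul, hnz 105 (-49) (by norm_num), mul_one]
    exact hlt)
  obtain ⟨Q₀, hQ0, hxQ, -⟩ := exists_pt (1 : Kˣ).ne_zero (x := 1 + II K) (s := t1)
    (by rw [ht1, Units.val_one, one_mul, e1])
  obtain ⟨R₀, hR0, hxR, -⟩ := exists_pt (1 : Kˣ).ne_zero (x := 7 - II K) (s := t2)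
    (by rw [ht2, Units.val_one, one_mul, e2])
  refine ⟨Q₀, R₀, hQ0, hR0, hxQ, hxR, ?_⟩
  have eD : sD (1 + II K) (7 - II K) = 3 * (((5 : ℤ) : K) + ((6 : ℤ) : K) * II K) := by
    unfold sD; push_cast; linear_combination (-3) * hI
  have eS : sS (1 + II K) (7 - II K) = 3 * 3 := by unfold sS; ring
  have eQ : sQ (1 + II K) (7 - II K) = 3 * 3 * (((-2 : ℤ) : K) + ((1 : ℤ) : K) * II K) *
      (((-4 : ℤ) : K) + ((1 : ℤ) : K) * II K) := by
    unfold sQ; push_cast; ring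
  have nD := hnz 5 6 (by norm_num)
  have nQ1 := hnz (-2) 1 (by norm_num)
  have nQ2 := hnz (-4) 1 (by norm_num)
  have ne_of : ∀ x : K, ‖x‖ = 1 → x ≠ 0 := by rintro x hx rfl; simp at hx
  have hD : sD (nx Q₀) (nx R₀) ≠ 0 := by
    rw [hxQ, hxR, eD]; exact mul_ne_zero h30 (ne_of _ nD)
  have hS : sS (nx Q₀) (nx R₀) ≠ 0 := by
    rw [hxQ, hxR, eS]; exact mul_ne_zero h30 h30
  have hQ' : sQ (nx Q₀) (nx R₀) ≠ 0 := by
    rw [hxQ, hxR, eQ]
    exact mul_ne_zero (mul_ne_zero (mul_ne_zero h30 h30) (ne_of _ nQ1)) (ne_of _ nQ2)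
  have hfQ : ff (nx Q₀) ≠ 0 := by rw [hxQ, e1, ← ht1]; exact pow_ne_zero 2 ht10
  have hfR : ff (nx R₀) ≠ 0 := by rw [hxR, e2, ← ht2]; exact pow_ne_zero 2 ht20
  obtain ⟨d', Q', R', hrel⟩ := exists_image hfQ hfR hD hS hQ'
  have hel := hrel.elim
  simp only at hel
  obtain ⟨-, -, hQ'0, hR'0, -, -, -, -, -, -, -, hx', hy'⟩ := hel
  have hrho : ‖rho (1 + II K) (7 - II K)‖ = ‖(3 : K)‖ := by
    unfold rho
    rw [eS, eD, norm_div, norm_mul, norm_mul, norm_mul, norm_neg, h.norm_two h2, nD, one_mul,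
      mul_one]
    have : ‖(3 : K)‖ ≠ 0 := norm_ne_zero_iff.2 h30
    field_simp
  apply hA.sig ⟨d', Q', R'⟩ _ hrel.symm
  apply mem_NN_TT hNN
  · rw [h.near_T_iff h2 d'.ne_zero hQ'0]
    have : nx Q' - 1 = rho (1 + II K) (7 - II K) * II K := by
      rw [hx', hxQ, hxR]; unfold sx; ring
    rw [this, norm_mul, hrho, LocHyp.norm_II, mul_one, hn3]
    simp
  · rw [h.near_T_iff h2 d'.ne_zero hR'0]
    have : nx R' - 1 = rho (1 + II K) (7 - II K) * (((6 : ℤ) : K) + ((-1 : ℤ) : K) * II K) := by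
      rw [hy', hxQ, hxR]; unfold sy; push_cast; ring
    rw [this, norm_mul, hrho, hnz 6 (-1) (by norm_num), mul_one, hn3]
    simp

end GWA
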