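import Pool.Agent.Helper15.WA.L3b

/-!
# The place above 3, continued
-/

namespace GWA

variable {K : Type} [NormedField K] [Algebra GaussianInt K] {π : GaussianInt}
  [NeZero (2 : K)] [DecidableEq K] {A : Set (FLD K π).Sys}

theorem nx_add_giT (d : Kˣ) {P : E (d : K)} (hP : P ≠ 0) (hx : nx P ≠ -1) :
    P + gi • T d.ne_zero ≠ 0 ∧ nx (P + gi • T d.ne_zero) = (1 - nx P) / (1 + nx P) := by
  have e : P + gi • T d.ne_zero = gi • (-(gi • P) + T d.ne_zero) := by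
    rw [smul_add, smul_neg, ← mul_smul]
    have : gi * gi = -1 := by decide
    rw [this, neg_smul, one_smul, neg_neg]
  have h1 : -(gi • P) ≠ 0 := neg_ne (gi_smul_ne d hP)
  have h2 : nx (-(gi • P)) ≠ 1 := by
    rw [nx_neg, nx_gi_smul]
    intro h; apply hx; linear_combination -h
  obtain ⟨h3, h4⟩ := nx_add_T d.ne_zero h1 h2
  have h5 : nx P + 1 ≠ 0 := fun h => hx (by linear_combination h)
  rw [e]
  refine ⟨gi_smul_ne d h3, ?_⟩
  rw [nx_gi_smul, h4, nx_neg, nx_gi_smul]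
  have h6 : -nx P - 1 ≠ 0 := by intro h; apply h5; linear_combination -h
  have h7 : 1 + nx P ≠ 0 := by rw [add_comm]; exact h5
  field_simp
  ring

omit [NeZero (2 : K)] [DecidableEq K] in
theorem LocHyp.lt_le (h : LocHyp K π) {x : K} (hx : ‖x‖ < 1) :
    ‖x‖ ≤ ‖algebraMap GaussianInt K π‖ := by
  have := h.disc (n := 0) (by rwa [zpow_zero])
  rwa [zero_add, zpow_one] at this

omit [NeZero (2 : K)] [DecidableEq K] in
theorem LocHyp.lt_le_n (h : LocHyp K π) {x : K} (n : ℕ) (hx : ‖x‖ < ‖algebraMap GaussianInt K π‖ ^ n) :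
    ‖x‖ ≤ ‖algebraMap GaussianInt K π‖ ^ (n + 1) := by
  have := h.disc (n := n) (by rwa [zpow_natCast])
  exact_mod_cast this

/-- class of generators, content zero -/
theorem LocHyp.three_gen_aux (h : LocHyp K π) (h2 : ¬ π ∣ 2) (hA : (FLD K π).LStable A)
    (hπ : Associated π (3 : GaussianInt)) {d : Kˣ} {Q₀ R₀ : E (d : K)} (hQ0 : Q₀ ≠ 0)
    (hR0 : R₀ ≠ 0) (hxQ : nx Q₀ = 1 + II K) (hxR : nx R₀ = 7 - II K)
    (ht : (⟨d, Q₀, R₀⟩ : (FLD K π).Sys) ∈ A) :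
    ∃ P₀ : E (d : K), P₀ ≠ 0 ∧ nx P₀ = -1 - II K ∧
      (4 : GaussianInt) • P₀ ∈ nb π (d : K) 0 ∧
      (4 : GaussianInt) • P₀ ∉ nb π (d : K) 1 ∧
      ∀ Q R : E (d : K), Q - P₀ ∈ nb π (d : K) 0 →
        R - T d.ne_zero ∈ nb π (d : K) 0 → ¬ cge1 π Q R →
        (⟨d, Q, R⟩ : (FLD K π).Sys) ∈ A := by
  have hI := II_sq K
  have hn3 := h.n3 hπ
  have hlt : ‖(3 : K)‖ < 1 := by rw [hn3]; exact h.norm_pi
  have hnz := h.nz3 hπ
  have ne_of : ∀ x : K, ‖x‖ = 1 → x ≠ 0 := by rintro x hx rfl; simp at hx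
  have h1 := d.ne_zero
  have e1 : ff (nx Q₀) = II K - 3 := by
    rw [hxQ]; unfold ff; linear_combination (II K + 3) * hI
  have hf1 : ‖ff (nx Q₀)‖ = 1 := by
    have := hnz (-3) 1 (by norm_num)
    rw [e1, ← this]; congr 1; push_cast; ring
  have hf : ff (nx Q₀) ≠ 0 := ne_of _ hf1
  obtain ⟨h2Q, h2x⟩ := nx_double h1 hQ0 hf
  have h4 : ‖(4 : K)‖ = 1 := by
    have : (4 : K) = 2 * 2 := by norm_num
    rw [this, norm_mul, h.norm_two h2, mul_one]
  have h2x' : (nx (Q₀ + Q₀) - 1) * (4 * ff (nx Q₀)) = 3 ^ 2 := by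
    rw [sub_mul, h2x, e1, hxQ]; linear_combination (5 + II K ^ 2 + 4 * II K - 1 + 4) * hI * 0 + (II K ^ 2 + 4 * II K + 7) * hI
  have hn : ‖nx (Q₀ + Q₀) - 1‖ = ‖algebraMap GaussianInt K π‖ ^ 2 := by
    have := congrArg norm h2x'
    rwa [norm_mul, norm_mul, h4, hf1, mul_one, mul_one, norm_pow, hn3] at this
  have hp0 := h.norm_pi_pos
  have hp1 := h.norm_pi
  have hlev0 : Q₀ + Q₀ - T h1 ∈ nb π (d : K) 0 := by
    rw [h.near_T_iff h2 h1 h2Q, hn]
    exact pow_le_pow_of_le_one hp0.le hp1.le (by norm_num)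
  have hlev1 : Q₀ + Q₀ - T h1 ∉ nb π (d : K) 1 := by
    rw [h.near_T_iff h2 h1 h2Q, hn, not_le]
    exact pow_lt_pow_right_of_lt_one₀ hp0 hp1 (by norm_num)
  have e4 : (4 : GaussianInt) • Q₀ = (2 : GaussianInt) • (Q₀ + Q₀ - T h1) := by
    have : (4 : GaussianInt) = 2 * 2 := by norm_num
    rw [this, mul_smul, two_smul_eq d Q₀, smul_sub, two_smul_T, sub_zero]
  have h4Q0 : (4 : GaussianInt) • Q₀ ∈ nb π (d : K) 0 := by
    rw [e4]; exact h.nb_smul d 0 2 hlev0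
  have h4Q1 : (4 : GaussianInt) • Q₀ ∉ nb π (d : K) 1 := by
    rw [e4]; intro h5; exact hlev1 (h.nb_coprime d h2 hlev0 h5)
  -- relation between the two points
  have hgi : ¬ π ∣ gi := by
    intro h5
    apply h.prime.not_isUnit
    exact isUnit_of_dvd_unit h5 ⟨⟨gi, -gi, by decide, by decide⟩, rfl⟩
  have hx1 : nx Q₀ ≠ -1 := by
    rw [hxQ]
    intro h5
    have h6 := hnz 2 1 (by norm_num)
    have h7 : ((2 : ℤ) : K) + ((1 : ℤ) : K) * II K = 0 := by push_cast; linear_combination h5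
    rw [h7, norm_zero] at h6
    norm_num at h6
  obtain ⟨hS0, hSx⟩ := nx_add_giT d hQ0 hx1
  set S := Q₀ + gi • T d.ne_zero with hS
  have n21 := hnz 2 1 (by norm_num)
  have hSx' : nx S = - II K / (((2 : ℤ) : K) + ((1 : ℤ) : K) * II K) := by
    rw [hSx, hxQ]; push_cast; congr 1 <;> ring
  have hdiff : ‖nx R₀ - nx S‖ < 1 := by
    have : nx R₀ - nx S = 3 * (((5 : ℤ) : K) + ((2 : ℤ) : K) * II K) /
        (((2 : ℤ) : K) + ((1 : ℤ) : K) * II K) := by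
      rw [hSx', hxR]
      have := ne_of _ n21
      rw [eq_div_iff this, sub_mul, div_mul_cancel₀ _ this]
      push_cast
      linear_combination (-1) * hI
    rw [this, norm_div, norm_mul, n21, hnz 5 2 (by norm_num), mul_one, div_one]
    exact hlt
  have hRle : ‖nx R₀‖ ≤ 1 := by
    rw [hxR]
    have := hnz 7 (-1) (by norm_num)
    have e : (7 : K) - II K = ((7 : ℤ) : K) + ((-1 : ℤ) : K) * II K := by push_cast; ring
    rw [e, this]
  have hSle : ‖nx S‖ ≤ 1 := by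
    rw [hSx', norm_div, norm_neg, LocHyp.norm_II, n21, div_one]
  have hmain : ∃ R₁ ∈ nb π (d : K) 0,
      (⟨d, gi • Q₀, R₁ + T h1⟩ : (FLD K π).Sys) ∈ A := by
    rcases h.res_diff h2 h1 hR0 hS0 hRle hSle hdiff with h5 | h5
    · refine ⟨R₀ - S, h5, ?_⟩
      have h6 := hA.aff gi 0 (-1) 1 0 (gi + 1) (by
        have : gi * 1 - 0 * -1 = gi := by ring
        rw [this]; exact ⟨⟨gi, -gi, by decide, by decide⟩, rfl⟩) _ ht
      have h7 : (FLD K π).aff gi 0 (-1) 1 0 (gi + 1) (⟨d, Q₀, R₀⟩ : (FLD K π).Sys) =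
          (⟨d, gi • Q₀, R₀ - S + T h1⟩ : (FLD K π).Sys) := by
        change (⟨d, gi • Q₀ + (0 : GaussianInt) • R₀ + (0 : GaussianInt) • T h1,
          (-1 : GaussianInt) • Q₀ + (1 : GaussianInt) • R₀ + (gi + 1) • T h1⟩ :
            (FLD K π).Sys) = _
        have e5 : (-1 : GaussianInt) • Q₀ + (1 : GaussianInt) • R₀ + (gi + 1) • T h1 =
            R₀ - S + T h1 := by
          have h8 : gi • T h1 + gi • T h1 = 0 := by
            rw [← two_smul_eq, smul_comm, two_smul_T, smul_zero]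
          have h9 : gi • T h1 = - (gi • T h1) := eq_neg_of_add_eq_zero_left h8
          rw [hS, neg_smul, one_smul, one_smul, add_smul, one_smul]
          conv_lhs => rw [h9]
          abel
        rw [e5, zero_smul, zero_smul, add_zero, add_zero]
      rwa [h7] at h6
    · refine ⟨R₀ + S, h5, ?_⟩
      have h6 := hA.aff gi 0 1 1 0 (gi + 1) (by
        have : gi * 1 - 0 * 1 = gi := by ring
        rw [this]; exact ⟨⟨gi, -gi, by decide, by decide⟩, rfl⟩) _ ht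
      have h7 : (FLD K π).aff gi 0 1 1 0 (gi + 1) (⟨d, Q₀, R₀⟩ : (FLD K π).Sys) =
          (⟨d, gi • Q₀, R₀ + S + T h1⟩ : (FLD K π).Sys) := by
        change (⟨d, gi • Q₀ + (0 : GaussianInt) • R₀ + (0 : GaussianInt) • T h1,
          (1 : GaussianInt) • Q₀ + (1 : GaussianInt) • R₀ + (gi + 1) • T h1⟩ :
            (FLD K π).Sys) = _
        have e5 : (1 : GaussianInt) • Q₀ + (1 : GaussianInt) • R₀ + (gi + 1) • T h1 =
            R₀ + S + T h1 := by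
          rw [hS, one_smul, one_smul, add_smul, one_smul]
          abel
        rw [e5, zero_smul, zero_smul, add_zero, add_zero]
      rwa [h7] at h6
  obtain ⟨R₁, hR1, ht2⟩ := hmain
  have hP0 : (4 : GaussianInt) • gi • Q₀ ∈ nb π (d : K) 0 := by
    rw [smul_comm]; exact h.nb_smul d 0 gi h4Q0
  have hP1 : (4 : GaussianInt) • gi • Q₀ ∉ nb π (d : K) 1 := by
    rw [smul_comm]; intro h5; exact h4Q1 (h.nb_coprime d hgi h4Q0 h5)
  refine ⟨gi • Q₀, gi_smul_ne d hQ0, by rw [nx_gi_smul, hxQ]; ring, hP0, hP1, ?_⟩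
  intro Q R hQ hR hc
  apply h.orbit h2 hA ht2 hP0 _ (fun h5 => hP1 h5.1) hQ _ hc
  · rw [smul_add, four_smul_T, add_zero]
    exact h.nb_smul d 0 4 hR1
  · have : R - (R₁ + T h1) = (R - T h1) - R₁ := by abel
    rw [this]
    exact h.nb_sub h1 0 hR hR1

theorem LocHyp.three_gen (h : LocHyp K π) (h2 : ¬ π ∣ 2) (hA : (FLD K π).LStable A)
    (hNN : (FLD K π).NN ⊆ A) (hπ : Associated π (3 : GaussianInt)) :
    ∃ P₀ : E ((1 : Kˣ) : K), P₀ ≠ 0 ∧ nx P₀ = -1 - II K ∧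
      (4 : GaussianInt) • P₀ ∈ nb π ((1 : Kˣ) : K) 0 ∧
      (4 : GaussianInt) • P₀ ∉ nb π ((1 : Kˣ) : K) 1 ∧
      ∀ Q R : E ((1 : Kˣ) : K), Q - P₀ ∈ nb π ((1 : Kˣ) : K) 0 →
        R - T (1 : Kˣ).ne_zero ∈ nb π ((1 : Kˣ) : K) 0 → ¬ cge1 π Q R →
        (⟨(1 : Kˣ), Q, R⟩ : (FLD K π).Sys) ∈ A := by
  obtain ⟨Q₀, R₀, hQ0, hR0, hxQ, hxR, ht⟩ := h.three_start h2 hA hNN hπ
  exact h.three_gen_aux h2 hA hπ hQ0 hR0 hxQ hxR ht

end GWA
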