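import Pool.Agent.Helper15.WA.L3c

/-!
# The place above 3: the second class and the conclusion
-/

namespace GWA

variable {K : Type} [NormedField K] [Algebra GaussianInt K] {π : GaussianInt}
  [NeZero (2 : K)] [DecidableEq K] {A : Set (FLD K π).Sys}

theorem LocHyp.coords_sigma {x b : K} (hD : sD x (1 + b) ≠ 0) :
    sx x (1 + b) + x + 1 = 3 * b * x * (x + 1) / sD x (1 + b) := by
  unfold sx rho
  have h1 : sD x (1 + b) = 3 * x * (1 + b) - x - (1 + b) - 1 := rfl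
  generalize sD x (1 + b) = D at *
  unfold sS
  field_simp
  rw [h1]
  ring

/-- the involution on the pairs `(Q, R)`, `R` near `T` -/
theorem LocHyp.three_sig (h : LocHyp K π) (h2 : ¬ π ∣ 2) {d d' : Kˣ} {Q R : E (d : K)}
    {Q' R' : E (d' : K)} (hS : SRel ⟨d, Q, R⟩ ⟨d', Q', R'⟩) {x₀ : K} (hx : Cg (nx Q) x₀)
    (hx1 : ‖x₀ - 1‖ = 1) (hx2 : ‖x₀ + 2‖ = 1) {n : ℕ}
    (hR : ‖nx R - 1‖ ≤ ‖algebraMap GaussianInt K π‖ ^ (n + 1)) :
    ‖nx Q' + nx Q + 1‖ ≤ ‖(3 : K)‖ * ‖algebraMap GaussianInt K π‖ ^ (n + 1) ∧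
    ‖nx R' - 1‖ = ‖nx R - 1‖ := by
  have hel := hS.elim
  simp only at hel
  obtain ⟨hQ0, hR0, hQ'0, hR'0, -, -, -, -, hD, -, -, hx', hy'⟩ := hel
  have hp0 := h.norm_pi_pos
  have hp1 := h.norm_pi
  have hb1 : ‖nx R - 1‖ < 1 := hR.trans_lt (pow_lt_one₀ hp0.le hp1 (by omega))
  obtain ⟨b, hb⟩ : ∃ b, nx R = 1 + b := ⟨nx R - 1, by ring⟩
  rw [hb, add_sub_cancel_left] at hb1 hR ⊢
  rw [hb] at hD hx' hy'
  have cb : Cg b 0 := Cg.mk' h (by simp) (by rwa [sub_zero])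
  have cD : Cg (sD (nx Q) (1 + b)) (sD x₀ (1 + 0)) := by
    unfold sD
    exact (((((Cg.three h).mul h hx).mul h (Cg.one.add h cb)).sub h hx).sub h
      (Cg.one.add h cb)).sub h Cg.one
  have cS : Cg (sS (nx Q) (1 + b)) (sS x₀ (1 + 0)) := by
    unfold sS
    exact (hx.add h (Cg.one.add h cb)).add h Cg.one
  have nD : ‖sD (nx Q) (1 + b)‖ = 1 := by
    apply cD.norm_eq h
    have : sD x₀ (1 + 0) = 2 * (x₀ - 1) := by unfold sD; ring
    rw [this, norm_mul, h.norm_two h2, hx1, mul_one]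
  have nS : ‖sS (nx Q) (1 + b)‖ = 1 := by
    apply cS.norm_eq h
    have : sS x₀ (1 + 0) = x₀ + 2 := by unfold sS; ring
    rw [this, hx2]
  constructor
  · have e : nx Q' + nx Q + 1 = 3 * b * nx Q * (nx Q + 1) / sD (nx Q) (1 + b) := by
      rw [hx']; exact LocHyp.coords_sigma hD
    have hx1' : ‖nx Q + 1‖ ≤ 1 := (h.ultra _ _).trans (max_le hx.l (by simp))
    rw [e, norm_div, nD, div_one, norm_mul, norm_mul, norm_mul]
    calc ‖(3 : K)‖ * ‖b‖ * ‖nx Q‖ * ‖nx Q + 1‖ ≤ ‖(3 : K)‖ * ‖b‖ * 1 * 1 := by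
          gcongr
          exact hx.l
      _ = ‖(3 : K)‖ * ‖b‖ := by ring
      _ ≤ _ := by gcongr
  · have e : nx R' - 1 = rho (nx Q) (1 + b) * b := by
      rw [hy']; unfold sy; ring
    have hr : ‖rho (nx Q) (1 + b)‖ = 1 := by
      unfold rho
      rw [norm_div, norm_mul, norm_neg, h.norm_two h2, nS, nD]; norm_num
    rw [e, norm_mul, hr, one_mul]

/-- second class, content zero -/
theorem LocHyp.three_cls (h : LocHyp K π) (h2 : ¬ π ∣ 2) (hA : (FLD K π).LStable A)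
    (hNN : (FLD K π).NN ⊆ A) (hπ : Associated π (3 : GaussianInt)) :
    ∃ Q₀ : E ((1 : Kˣ) : K), Q₀ ≠ 0 ∧ ‖nx Q₀ - II K‖ < 1 ∧
      ∀ Q R : E ((1 : Kˣ) : K), Q - Q₀ ∈ nb π ((1 : Kˣ) : K) 0 →
        R - T (1 : Kˣ).ne_zero ∈ nb π ((1 : Kˣ) : K) 0 → ¬ cge1 π Q R →
        (⟨(1 : Kˣ), Q, R⟩ : (FLD K π).Sys) ∈ A := by
  have hI := II_sq K
  have hn3 := h.n3 hπ
  have hp0 := h.norm_pi_pos
  have hp1 := h.norm_pi
  have hlt : ‖(3 : K)‖ < 1 := by rw [hn3]; exact hp1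
  have hnz := h.nz3 hπ
  have hnII : ‖II K‖ = 1 := LocHyp.norm_II K
  obtain ⟨P₀, hP0, hxP, h40, h41, hall⟩ := h.three_gen h2 hA hNN hπ
  have h1 := (1 : Kˣ).ne_zero (M₀ := K)
  have hT := (h.T_not_mem (1 : Kˣ)).1
  set η := (4 : GaussianInt) • P₀ with hη
  have hTη0 : T (1 : Kˣ).ne_zero + η ≠ 0 := by
    intro h5
    apply hT
    have : T (1 : Kˣ).ne_zero = - η := eq_neg_of_add_eq_zero_left h5
    rw [this]
    exact neg_mem_nbh h40
  have hTη : T (1 : Kˣ).ne_zero + η - T (1 : Kˣ).ne_zero = η := add_sub_cancel_left _ _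
  have hy0 := (h.near_T_iff h2 (1 : Kˣ).ne_zero hTη0 0).1 (by rw [hTη]; exact h40)
  have hy1 : ¬ ‖nx (T (1 : Kˣ).ne_zero + η) - 1‖ ≤ ‖algebraMap GaussianInt K π‖ ^ (2 * 1 + 1) := by
    intro h5
    have := (h.near_T_iff h2 (1 : Kˣ).ne_zero hTη0 1).2 h5
    rw [hTη] at this
    exact h41 this
  have ht0 : (⟨(1 : Kˣ), P₀, T (1 : Kˣ).ne_zero + η⟩ : (FLD K π).Sys) ∈ A := by
    apply hall
    · rw [sub_self]; exact zero_mem_nbh _ _ _
    · rw [hTη]; exact h40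
    · exact fun h5 => h41 h5.1
  set y := nx (T (1 : Kˣ).ne_zero + η) with hy
  have hylt : ‖y - 1‖ < 1 := hy0.trans_lt (pow_lt_one₀ hp0.le hp1 (by norm_num))
  have cy : Cg y 1 := Cg.mk' h (by simp) hylt
  have hyn : ‖y‖ = 1 := cy.norm_eq h (by simp)
  have hy1n : y - 1 ≠ 0 := by
    intro h5
    apply hy1
    rw [h5, norm_zero]; positivity
  have hyp : ‖y + 1‖ = 1 := by
    apply (cy.add h Cg.one).norm_eq h
    rw [one_add_one_eq_two, h.norm_two h2]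
  have ne_of : ∀ x : K, ‖x‖ = 1 → x ≠ 0 := by rintro x hx rfl; simp at hx
  have hfy : ff y ≠ 0 := by
    have : ff y = y * (y - 1) * (y + 1) := by unfold ff; ring
    rw [this]
    exact mul_ne_zero (mul_ne_zero (ne_of _ hyn) hy1n) (ne_of _ hyp)
  have hfx : ff (nx P₀) ≠ 0 := by
    have e : ff (nx P₀) = 3 - II K := by
      rw [hxP]; unfold ff; linear_combination (-II K - 3) * hI
    rw [e]
    apply ne_of
    have := hnz 3 (-1) (by norm_num)
    rw [← this]; congr 1; push_cast; ring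
  have hD : sD (nx P₀) y ≠ 0 := by
    apply ne_of
    rw [hxP]
    have c1 : Cg (sD (-1 - II K) y) (sD (-1 - II K) 1) := by
      unfold sD
      have cx : Cg (-1 - II K) (-1 - II K) := Cg.rfl' (by
        have := hnz (-1) (-1) (by norm_num)
        have e : -1 - II K = ((-1 : ℤ) : K) + ((-1 : ℤ) : K) * II K := by push_cast; ring
        rw [e, this])
      exact (((((Cg.three h).mul h cx).mul h cy).sub h cx).sub h cy).sub h Cg.one
    apply c1.norm_eq h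
    have := hnz (-4) (-2) (by norm_num)
    rw [← this]; congr 1; unfold sD; push_cast; ring
  have hS : sS (nx P₀) y ≠ 0 := by
    apply ne_of
    rw [hxP]
    have c1 : Cg (sS (-1 - II K) y) (sS (-1 - II K) 1) := by
      unfold sS
      have cx : Cg (-1 - II K) (-1 - II K) := Cg.rfl' (by
        have := hnz (-1) (-1) (by norm_num)
        have e : -1 - II K = ((-1 : ℤ) : K) + ((-1 : ℤ) : K) * II K := by push_cast; ring
        rw [e, this])
      exact (cx.add h cy).add h Cg.one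
    apply c1.norm_eq h
    have := hnz 1 (-1) (by norm_num)
    rw [← this]; congr 1; unfold sS; push_cast; ring
  have hQq : sQ (nx P₀) y ≠ 0 := by
    apply ne_of
    rw [hxP]
    have c1 : Cg (sQ (-1 - II K) y) (sQ (-1 - II K) 1) := by
      unfold sQ
      have cx : Cg (-1 - II K) (-1 - II K) := Cg.rfl' (by
        have := hnz (-1) (-1) (by norm_num)
        have e : -1 - II K = ((-1 : ℤ) : K) + ((-1 : ℤ) : K) * II K := by push_cast; ring
        rw [e, this])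
      exact ((((Cg.two h).mul h cx).sub h cy).sub h Cg.one).mul h
        ((cx.sub h ((Cg.two h).mul h cy)).add h Cg.one)
    apply c1.norm_eq h
    have h5 := hnz (-4) (-2) (by norm_num)
    have h6 := hnz (-2) (-1) (by norm_num)
    have e : sQ (-1 - II K) 1 = (((-4 : ℤ) : K) + ((-2 : ℤ) : K) * II K) *
        (((-2 : ℤ) : K) + ((-1 : ℤ) : K) * II K) := by unfold sQ; push_cast; ring
    rw [e, norm_mul, h5, h6, mul_one]
  obtain ⟨d', Q', R', hrel⟩ := exists_image hfx hfy hD hS hQq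
  have ht' : (⟨d', Q', R'⟩ : (FLD K π).Sys) ∈ A := hA.sig _ _ hrel ht0
  have hel := hrel.elim
  simp only at hel
  obtain ⟨-, -, hQ'0, hR'0, -, -, -, -, -, -, -, -, -⟩ := hel
  have hxn : ‖(-1 : K) - II K‖ = 1 := by
    have := hnz (-1) (-1) (by norm_num)
    have e : -1 - II K = ((-1 : ℤ) : K) + ((-1 : ℤ) : K) * II K := by push_cast; ring
    rw [e, this]
  have hsg := h.three_sig h2 hrel (x₀ := -1 - II K) (n := 0) (by rw [hxP]; exact Cg.rfl' hxn.le)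
    (by
      have := hnz (-2) (-1) (by norm_num)
      rw [← this]; congr 1; push_cast; ring)
    (by
      have := hnz 1 (-1) (by norm_num)
      rw [← this]; congr 1; push_cast; ring) (by simpa using hy0)
  obtain ⟨hs1, hs2⟩ := hsg
  have hxQ' : ‖nx Q' - II K‖ < 1 := by
    have e : nx Q' - II K = nx Q' + nx P₀ + 1 := by rw [hxP]; ring
    rw [e]
    refine hs1.trans_lt ?_
    rw [zero_add, pow_one]
    exact mul_lt_one_of_nonneg_of_lt_one_left (norm_nonneg _) hlt hp1.le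
  have cQ' : Cg (nx Q') (II K) := Cg.mk' h hnII.le hxQ'
  have hfQ' : ‖ff (nx Q') - (1 - II K) ^ 2‖ < 1 := by
    have c1 : Cg (ff (nx Q')) (ff (II K)) := (cQ'.pow h 3).sub h cQ'
    have e : ff (II K) = (1 - II K) ^ 2 := by unfold ff; linear_combination (II K - 1) * hI
    rw [← e]
    exact c1.c
  obtain ⟨c, hc, hdc⟩ := h.d_sq h2 (s := 1 - II K) (by
    have := hnz 1 (-1) (by norm_num)
    rw [← this]; congr 1; push_cast; ring) hfQ'
  obtain ⟨Q₃, R₃, hQ3, hR3, hxQ3, hxR3, -, hiff⟩ := to_one hA hc hdc Q' R' hQ'0 hR'0 ⟨_, hrel⟩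
  have ht3 := hiff.1 ht'
  have cQ3 : Cg (nx Q₃) (II K) := by rw [hxQ3]; exact cQ'
  -- `4 Q₃` is near zero
  have hf3 : ‖ff (nx Q₃)‖ = 1 := by
    have c1 : Cg (ff (nx Q₃)) (ff (II K)) := (cQ3.pow h 3).sub h cQ3
    apply c1.norm_eq h
    have e : ff (II K) = (-2) * II K := by unfold ff; linear_combination II K * hI
    rw [e, norm_mul, norm_neg, h.norm_two h2, hnII, one_mul]
  have hf30 := ne_of _ hf3
  obtain ⟨h2Q, h2x⟩ := nx_double (1 : Kˣ).ne_zero hQ3 hf30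
  have h4 : ‖(4 : K)‖ = 1 := by
    have : (4 : K) = 2 * 2 := by norm_num
    rw [this, norm_mul, h.norm_two h2, mul_one]
  have hn2 : ‖nx (Q₃ + Q₃)‖ < 1 := by
    have h5 := congrArg norm h2x
    rw [norm_mul, norm_mul, h4, hf3, mul_one, mul_one] at h5
    rw [h5]
    have c1 : Cg ((nx Q₃ ^ 2 + 1) ^ 2) ((II K ^ 2 + 1) ^ 2) := ((cQ3.pow h 2).add h Cg.one).pow h 2
    apply c1.norm_lt h
    rw [hI]; norm_num
  have h2Q0 : Q₃ + Q₃ - T₀ (1 : Kˣ).ne_zero ∈ nb π ((1 : Kˣ) : K) 0 := by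
    rw [h.near_T₀_iff (1 : Kˣ).ne_zero h2Q]
    simpa using h.lt_le hn2
  have e4 : (4 : GaussianInt) • Q₃ = (2 : GaussianInt) • (Q₃ + Q₃ - T₀ (1 : Kˣ).ne_zero) := by
    have : (4 : GaussianInt) = 2 * 2 := by norm_num
    rw [this, mul_smul, two_smul_eq (1 : Kˣ) Q₃, smul_sub, two_smul_T₀, sub_zero]
  have h4Q3 : (4 : GaussianInt) • Q₃ ∈ nb π ((1 : Kˣ) : K) 0 := by
    rw [e4]; exact h.nb_smul (1 : Kˣ) 0 2 h2Q0
  -- `R₃`
  have hR30 : R₃ - T (1 : Kˣ).ne_zero ∈ nb π ((1 : Kˣ) : K) 0 := by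
    rw [h.near_T_iff h2 (1 : Kˣ).ne_zero hR3, hxR3, hs2]; exact hy0
  have hR31 : R₃ - T (1 : Kˣ).ne_zero ∉ nb π ((1 : Kˣ) : K) 1 := by
    rw [h.near_T_iff h2 (1 : Kˣ).ne_zero hR3, hxR3, hs2]; exact hy1
  have e4R : (4 : GaussianInt) • R₃ = (4 : GaussianInt) • (R₃ - T (1 : Kˣ).ne_zero) := by
    rw [smul_sub, four_smul_T, sub_zero]
  have h4R3 : (4 : GaussianInt) • R₃ ∈ nb π ((1 : Kˣ) : K) 0 := by
    rw [e4R]; exact h.nb_smul (1 : Kˣ) 0 4 hR30
  have h4R31 : (4 : GaussianInt) • R₃ ∉ nb π ((1 : Kˣ) : K) 1 := by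
    rw [e4R]; intro h5; exact hR31 (h.nb_coprime (1 : Kˣ) (h.four_coprime h2) hR30 h5)
  refine ⟨Q₃, hQ3, cQ3.c, fun Q R hQ hR hc' => ?_⟩
  apply h.orbit h2 hA ht3 h4Q3 h4R3 (fun h5 => h4R31 h5.2) hQ _ hc'
  have : R - R₃ = (R - T (1 : Kˣ).ne_zero) - (R₃ - T (1 : Kˣ).ne_zero) := by abel
  rw [this]
  exact h.nb_sub (1 : Kˣ).ne_zero 0 hR hR30

end GWA
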