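import Pool.Agent.Helper15.WA.Curve

/-!
# Complex multiplication on `E d`: the `ℤ[i]`-module structure
-/

namespace GWA

open WeierstrassCurve WeierstrassCurve.Affine

variable {K : Type*} [Field K] [Algebra GaussianInt K] [NeZero (2 : K)]

omit [NeZero (2 : K)] in
theorem II_ne : II K ≠ 0 := by
  intro h
  have := II_sq K
  rw [h] at this
  norm_num at this

omit [Algebra GaussianInt K] [NeZero (2 : K)] in
theorem W_nonsing_iff {d x y : K} : (W d).Nonsingular x y ↔
    (W d).Equation x y ∧ (3 * x ^ 2 - d ^ 2 ≠ 0 ∨ 2 * y ≠ 0) := by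
  rw [nonsingular_iff]
  apply and_congr_right
  intro _
  simp only [W, zero_mul, mul_zero, sub_zero, add_zero]
  constructor
  · rintro (h | h)
    · left
      intro h'
      apply h
      linear_combination -h'
    · right
      intro h'
      apply h
      linear_combination h'
  · rintro (h | h)
    · left
      intro h'
      apply h
      linear_combination -h'
    · right
      intro h'
      apply h
      linear_combination h'

omit [NeZero (2 : K)] in
theorem im_nonsing {d x y : K} (h : (W d).Nonsingular x y) :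
    (W d).Nonsingular (-x) (II K * y) := by
  rw [W_nonsing_iff] at h ⊢
  obtain ⟨h1, h2⟩ := h
  rw [W_eq] at h1 ⊢
  refine ⟨?_, ?_⟩
  · rw [mul_pow, II_sq, h1]; ring
  · rcases h2 with h | h
    · left
      convert h using 1
      ring
    · right
      intro h'
      apply h
      have : II K * (2 * y) = 0 := by linear_combination h'
      exact (mul_eq_zero.1 this).resolve_left II_ne

/-- underlying function of the multiplication by `i` -/
def imFun {d : K} : E d → E d
  | .zero => .zero
  | .some x y h => .some (-x) (II K * y) (im_nonsing h)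

omit [NeZero (2 : K)] in
@[simp] theorem imFun_zero {d : K} : imFun (0 : E d) = 0 := rfl

omit [NeZero (2 : K)] in
@[simp] theorem xc_imFun {d : K} (P : E d) : xc (imFun P) = - xc P := by
  cases P with
  | zero => exact neg_zero.symm
  | some x y h => rfl

omit [NeZero (2 : K)] in
@[simp] theorem yc_imFun {d : K} (P : E d) : yc (imFun P) = II K * yc P := by
  cases P with
  | zero => exact (mul_zero _).symm
  | some x y h => rfl

omit [NeZero (2 : K)] in
theorem imFun_ne {d : K} {P : E d} (hP : P ≠ 0) : imFun P ≠ 0 := by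
  cases P with
  | zero => exact absurd rfl hP
  | some x y h => exact Point.some_ne_zero _

variable [DecidableEq K]

/-- multiplication by `i` -/
def im {d : K} (hd : d ≠ 0) : E d →+ E d where
  toFun := imFun
  map_zero' := rfl
  map_add' := by
    apply additive_of_line
    · rfl
    · intro P
      by_cases hP : P = 0
      · rw [hP]; rfl
      · apply pt_ext (imFun_ne (neg_ne hP)) (neg_ne (imFun_ne hP))
        · rw [xc_imFun, xc_neg, xc_neg, xc_imFun]
        · rw [yc_imFun, yc_neg, yc_neg, yc_imFun, mul_neg]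
    · intro P Q R hP hQ hR hPQR
      obtain ⟨l, c0, h1, h2, h3, h4, h5, h6⟩ := line_of_add_eq_zero hP hQ hR hPQR
      have hI := II_sq K
      apply add_eq_zero_of_line hd (imFun_ne hP) (imFun_ne hQ) (imFun_ne hR)
        (L := -II K * l) (c := II K * c0)
      · rw [xc_imFun, yc_imFun, h1]; ring
      · rw [xc_imFun, yc_imFun, h2]; ring
      · rw [xc_imFun, yc_imFun, h3]; ring
      · rw [xc_imFun, xc_imFun, xc_imFun]; linear_combination - h4 - l ^ 2 * hI
      · rw [xc_imFun, xc_imFun, xc_imFun]; linear_combination h5 - 2 * l * c0 * hI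
      · rw [xc_imFun, xc_imFun, xc_imFun]; linear_combination - h6 - c0 ^ 2 * hI

@[simp] theorem xc_im {d : K} (hd : d ≠ 0) (P : E d) : xc (im hd P) = - xc P := xc_imFun P

@[simp] theorem yc_im {d : K} (hd : d ≠ 0) (P : E d) : yc (im hd P) = II K * yc P := yc_imFun P

theorem im_ne {d : K} (hd : d ≠ 0) {P : E d} (hP : P ≠ 0) : im hd P ≠ 0 := imFun_ne hP

theorem im_im {d : K} (hd : d ≠ 0) (P : E d) : im hd (im hd P) = -P := by
  by_cases hP : P = 0
  · rw [hP]; simp
  · apply pt_ext (im_ne hd (im_ne hd hP)) (neg_ne hP)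
    · rw [xc_im, xc_im, xc_neg, neg_neg]
    · rw [yc_im, yc_im, yc_neg, ← mul_assoc, ← sq, II_sq]; ring

/-- the `ℤ[i]`-module structure -/
noncomputable instance instModE (d : Kˣ) : Module GaussianInt (E (d : K)) where
  smul α P := α.re • P + α.im • im d.ne_zero P
  one_smul P := by
    change (1 : ℤ) • P + (0 : ℤ) • im d.ne_zero P = P
    rw [one_smul, zero_smul, add_zero]
  mul_smul α β P := by
    change (α * β).re • P + (α * β).im • im d.ne_zero P =
      α.re • (β.re • P + β.im • im d.ne_zero P) +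
        α.im • im d.ne_zero (β.re • P + β.im • im d.ne_zero P)
    rw [map_add, map_zsmul, map_zsmul, im_im]
    simp only [Zsqrtd.re_mul, Zsqrtd.im_mul, add_smul, mul_smul, smul_add, smul_neg, neg_smul,
      one_smul]
    abel
  smul_zero α := by
    change α.re • (0 : E (d : K)) + α.im • im d.ne_zero 0 = 0
    simp
  smul_add α P Q := by
    change α.re • (P + Q) + α.im • im d.ne_zero (P + Q) =
      (α.re • P + α.im • im d.ne_zero P) + (α.re • Q + α.im • im d.ne_zero Q)
    rw [map_add, smul_add, smul_add]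
    abel
  add_smul α β P := by
    change (α + β).re • P + (α + β).im • im d.ne_zero P =
      (α.re • P + α.im • im d.ne_zero P) + (β.re • P + β.im • im d.ne_zero P)
    rw [Zsqrtd.re_add, Zsqrtd.im_add, add_smul, add_smul]
    abel
  zero_smul P := by
    change (0 : ℤ) • P + (0 : ℤ) • im d.ne_zero P = 0
    rw [zero_smul, zero_smul, add_zero]

theorem smul_def (d : Kˣ) (α : GaussianInt) (P : E (d : K)) :
    α • P = α.re • P + α.im • im d.ne_zero P := rfl

theorem intCast_smul (d : Kˣ) (n : ℤ) (P : E (d : K)) : (n : GaussianInt) • P = n • P := by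
  rw [smul_def]
  simp

theorem natCast_smul (d : Kˣ) (n : ℕ) (P : E (d : K)) : (n : GaussianInt) • P = n • P := by
  rw [smul_def]
  simp

/-- the element `i` -/
abbrev gi : GaussianInt := ⟨0, 1⟩

theorem gi_smul (d : Kˣ) (P : E (d : K)) : gi • P = im d.ne_zero P := by
  rw [smul_def]
  simp

theorem xc_gi_smul (d : Kˣ) (P : E (d : K)) : xc (gi • P) = - xc P := by
  rw [gi_smul, xc_im]

theorem yc_gi_smul (d : Kˣ) (P : E (d : K)) : yc (gi • P) = II K * yc P := by
  rw [gi_smul, yc_im]

/-- the prime `1 + i` -/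
abbrev lam : GaussianInt := ⟨1, 1⟩

theorem lam_smul (d : Kˣ) (P : E (d : K)) : lam • P = P + gi • P := by
  rw [smul_def, gi_smul]
  simp

/-! ### the 2-torsion points -/

theorem im_T {d : K} (hd : d ≠ 0) : xc (im hd (T hd)) = -d := by rw [xc_im, xc_T]

theorem two_smul_T (d : Kˣ) : (2 : GaussianInt) • T d.ne_zero = 0 := by
  have h := intCast_smul d 2 (T d.ne_zero)
  push_cast at h
  rw [h, two_zsmul, T_add_T]

theorem im_T₀ {d : K} (hd : d ≠ 0) : im hd (T₀ hd) = T₀ hd := by
  apply eq_T₀_of_xc hd (im_ne hd (T₀_ne hd))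
  rw [xc_im, xc_T₀, neg_zero]

theorem lam_smul_T (d : Kˣ) : lam • T d.ne_zero = T₀ d.ne_zero := by
  rw [lam_smul]
  have hne : gi • T d.ne_zero ≠ T d.ne_zero := by
    intro h
    have h1 := congrArg xc h
    rw [xc_gi_smul, xc_T] at h1
    have h2 : 2 * (d : K) = 0 := by linear_combination -h1
    exact (mul_ne_zero two_ne_zero d.ne_zero) h2
  have hne0 : gi • T d.ne_zero ≠ 0 := by
    rw [gi_smul]; exact im_ne d.ne_zero (T_ne d.ne_zero)
  obtain ⟨h1, h2, h3, h4⟩ := add_T d.ne_zero hne0 hne
  rw [add_comm]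
  apply eq_T₀_of_xc d.ne_zero h1
  rw [h3, xc_gi_smul, xc_T]
  simp

/-- multiplication by `1 + i` -/
theorem xc_lam_smul (d : Kˣ) {P : E (d : K)} (hP : P ≠ 0) (h0 : xc P ≠ 0) :
    lam • P ≠ 0 ∧ xc (lam • P) * (2 * II K * xc P) = xc P ^ 2 - (d : K) ^ 2 := by
  have hne : gi • P ≠ 0 := by rw [gi_smul]; exact im_ne d.ne_zero hP
  have hx : xc P ≠ xc (gi • P) := by
    rw [xc_gi_smul]
    intro h
    have : 2 * xc P = 0 := by linear_combination h
    exact (mul_ne_zero two_ne_zero h0) this
  obtain ⟨h1, h2⟩ := xc_add_mul hP hne hx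
  rw [lam_smul]
  refine ⟨h1, ?_⟩
  rw [xc_gi_smul, yc_gi_smul] at h2
  have e := curve_eq P
  have hI := II_sq K
  have key : xc (P + gi • P) * (2 * xc P) ^ 2 = -2 * II K * yc P ^ 2 := by
    linear_combination h2
  have h3 : (2 * xc P) * (xc (P + gi • P) * (2 * II K * xc P)) =
      (2 * xc P) * (xc P ^ 2 - (d : K) ^ 2) := by
    linear_combination II K * key - 2 * yc P ^ 2 * hI + 2 * e
  exact mul_left_cancel₀ (mul_ne_zero two_ne_zero h0) h3

end GWA
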