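import Pool.Agent.Helper15.WA.L3a
import Pool.Agent.Helper15.WA.Cg

/-!
# Module TRB
-/

namespace GWA

variable {K : Type} [NormedField K] [Algebra GaussianInt K] {π : GaussianInt}
  [NeZero (2 : K)] [DecidableEq K] {A : Set (FLD K π).Sys}

theorem Rc_congr {c c' : K} (hcc : ‖c - c'‖ < 1) (h : LocHyp K π) (hR : Rc A c) : Rc A c' := by
  intro d Q R hQ hx hRT
  apply hR d Q R hQ _ hRT
  have e : nx Q - c = (nx Q - c') - (c - c') := by ring
  rw [e]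
  exact (h.norm_sub_le _ _).trans_lt (max_lt hx hcc)

theorem LocHyp.Rc_neg (h : LocHyp K π) (hA : (FLD K π).LStable A) {c : K} (hR : Rc A c) :
    Rc A (-c) := by
  intro d Q R hQ hx hRT
  have h1 := hR d (gi • Q) R (gi_smul_ne d hQ) (by
    rw [nx_gi_smul]
    have e : -nx Q - c = -(nx Q - -c) := by ring
    rw [e, norm_neg]; exact hx) hRT
  have h3 := hA.aff (-gi) 0 0 1 0 0 (by
    have : -gi * 1 - 0 * 0 = -gi := by ring
    rw [this]; exact ⟨⟨-gi, gi, by decide, by decide⟩, rfl⟩) _ h1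
  have : (FLD K π).aff (-gi) 0 0 1 0 0 ⟨d, gi • Q, R⟩ = (⟨d, Q, R⟩ : (FLD K π).Sys) := by
    change (⟨d, (-gi : GaussianInt) • (gi • Q) + (0 : GaussianInt) • R +
      (0 : GaussianInt) • T d.ne_zero, (0 : GaussianInt) • (gi • Q) + (1 : GaussianInt) • R +
      (0 : GaussianInt) • T d.ne_zero⟩ : (FLD K π).Sys) = _
    have e : (-gi : GaussianInt) • gi • Q = Q := by
      rw [← mul_smul]
      have : -gi * gi = 1 := by decide
      rw [this, one_smul]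
    simp [e]
  rwa [this] at h3

theorem LocHyp.Rc_T (h : LocHyp K π) (hodd : ¬ π ∣ 2) (hA : (FLD K π).LStable A) {c : K}
    (hc : ‖c‖ ≤ 1) (hc1 : ‖c - 1‖ = 1) (hR : Rc A c) : Rc A ((c + 1) / (c - 1)) := by
  intro d Q R hQ hx hRT
  have cc : Cg c c := Cg.rfl' hc
  have c1 : Cg (c - 1) (c - 1) := cc.sub h Cg.one
  have c2 : Cg (nx Q) ((c + 1) / (c - 1)) := by
    refine Cg.mk' h ?_ hx
    exact ((cc.add h Cg.one).div h c1 hc1).l
  have hc10 : c - 1 ≠ 0 := by intro h5; rw [h5, norm_zero] at hc1; norm_num at hc1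
  have c3 : ‖nx Q - 1‖ = 1 := by
    apply (c2.sub h Cg.one).norm_eq h
    have e : (c + 1) / (c - 1) - 1 = 2 / (c - 1) := by field_simp; ring
    rw [e, norm_div, h.norm_two hodd, hc1, div_one]
  have c30 : nx Q ≠ 1 := by
    intro h5; rw [h5, sub_self, norm_zero] at c3; norm_num at c3
  obtain ⟨h1, h2⟩ := nx_add_T d.ne_zero hQ c30
  have h3 := hR d (Q + T d.ne_zero) R h1 (by
    have c4 : Cg (nx (Q + T d.ne_zero)) (((c + 1) / (c - 1) + 1) / ((c + 1) / (c - 1) - 1)) := by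
      rw [h2]
      refine (c2.add h Cg.one).div h (c2.sub h Cg.one) ?_
      rw [← (c2.sub h Cg.one).symm.norm_eq h c3]
    have e : ((c + 1) / (c - 1) + 1) / ((c + 1) / (c - 1) - 1) = c := by
      have h2' : (2 : K) ≠ 0 := two_ne_zero
      have e1 : (c + 1) / (c - 1) - 1 = 2 / (c - 1) := by field_simp; ring
      rw [e1]
      field_simp
      ring
    rw [e] at c4
    exact c4.c) hRT
  have h4 := hA.aff 1 0 0 1 1 0 (by simp) _ h3
  have : (FLD K π).aff 1 0 0 1 1 0 ⟨d, Q + T d.ne_zero, R⟩ = (⟨d, Q, R⟩ : (FLD K π).Sys) := by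
    change (⟨d, (1 : GaussianInt) • (Q + T d.ne_zero) + (0 : GaussianInt) • R +
      (1 : GaussianInt) • T d.ne_zero, (0 : GaussianInt) • (Q + T d.ne_zero) +
      (1 : GaussianInt) • R + (0 : GaussianInt) • T d.ne_zero⟩ : (FLD K π).Sys) = _
    have e : Q + T d.ne_zero + T d.ne_zero = Q := by rw [add_assoc, T_add_T, add_zero]
    simp [e]
  rwa [this] at h4

theorem LocHyp.lt_le' (h : LocHyp K π) {x : K} (hx : ‖x‖ < 1) :
    ‖x‖ ≤ ‖algebraMap GaussianInt K π‖ ^ (2 * 0 + 1) := by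
  have := h.disc (n := 0) (by rwa [zpow_zero])
  rw [zero_add, zpow_one] at this
  simpa using this

theorem LocHyp.Rc_node (h : LocHyp K π) (hodd : ¬ π ∣ 2) (hNN : (FLD K π).NN ⊆ A) :
    Rc A (0 : K) ∧ Rc A (1 : K) ∧ Rc A (-1 : K) := by
  have key : ∀ (d : Kˣ) (Q R : E (d : K)) (κ : GaussianInt),
      Q - κ • T d.ne_zero ∈ nb π (d : K) 0 → R - T d.ne_zero ∈ nb π (d : K) 0 →
      (⟨d, Q, R⟩ : (FLD K π).Sys) ∈ A := by
    intro d Q R κ hQ hR
    apply hNN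
    refine ⟨κ, 1, Q - κ • T d.ne_zero, hQ, R - T d.ne_zero, hR, ?_⟩
    change (⟨d, Q, R⟩ : (FLD K π).Sys) = ⟨d, κ • T d.ne_zero + (Q - κ • T d.ne_zero),
      (1 : GaussianInt) • T d.ne_zero + (R - T d.ne_zero)⟩
    rw [one_smul, add_sub_cancel, add_sub_cancel]
  refine ⟨?_, ?_, ?_⟩
  · intro d Q R hQ hx hRT
    rw [sub_zero] at hx
    apply key d Q R lam _ hRT
    rw [lam_smul_T]
    exact (h.near_T₀_iff d.ne_zero hQ 0).2 (h.lt_le' hx)
  · intro d Q R hQ hx hRT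
    apply key d Q R 1 _ hRT
    rw [one_smul]
    exact (h.near_T_iff hodd d.ne_zero hQ 0).2 (h.lt_le' hx)
  · intro d Q R hQ hx hRT
    apply key d Q R gi _ hRT
    apply (h.near_giT_iff hodd d hQ 0).2 (h.lt_le' _)
    have e : nx Q + 1 = nx Q - -1 := by ring
    rw [e]; exact hx

theorem LocHyp.Rc_sig (h : LocHyp K π) (hodd : ¬ π ∣ 2) (hA : (FLD K π).LStable A) {c : K}
    (hc : ‖c‖ ≤ 1) (hc1 : ‖c - 1‖ = 1) (hR : Rc A (-c - 1)) : Rc A c := by
  intro d Q R hQ hx hRT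
  have hd := d.ne_zero
  apply hA.cl
  intro n
  obtain ⟨t', ⟨Q₁, R₁, rfl, hQ1', hR1'⟩, ⟨⟨d'', Q'', R''⟩, hS⟩⟩ : ∃ t' : (FLD K π).Sys,
      (∃ Q₁ R₁ : E (d : K), t' = (⟨d, Q₁, R₁⟩ : (FLD K π).Sys) ∧
      Q₁ - Q ∈ nb π (d : K) n ∧ R₁ - R ∈ nb π (d : K) n) ∧ ∃ t'', (FLD K π).S t'' t' :=
    dens_of_infinite (fun d hd n => h.nb_infinite hd n) ⟨d, Q, R⟩ n
  refine ⟨_, hA.sig _ _ hS ?_, ⟨Q₁, R₁, rfl, hQ1', hR1'⟩⟩
  have cQ : Cg (nx Q) c := Cg.mk' h hc hx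
  have hQnb : Q ∉ nb π (d : K) 0 := (h.not_mem_nb_iff hd).2 ⟨hQ, cQ.l⟩
  obtain ⟨hQ10, -, hQ1le, hQ1x⟩ := h.res_conv hodd hd hQnb (h.nb_anti _ (Nat.zero_le n) hQ1')
  have cQ1 : Cg (nx Q₁) c := Cg.trans h ⟨hQ1le, cQ.l, hQ1x⟩ cQ
  have hR1T : R₁ - T d.ne_zero ∈ nb π (d : K) 0 := by
    have := h.nb_add hd 0 (h.nb_anti _ (Nat.zero_le n) hR1') hRT
    rwa [sub_add_sub_cancel] at this
  have hrel : SRel ⟨d, Q₁, R₁⟩ ⟨d'', Q'', R''⟩ := SRel.symm hS
  have hel := hrel.elim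
  simp only at hel
  obtain ⟨-, hR10, hQ''0, hR''0, -, -, -, -, hD, -, -, hx', hy'⟩ := hel
  have hp0 := h.norm_pi_pos
  have hp1 := h.norm_pi
  have cR1 : Cg (nx R₁) 1 := by
    refine Cg.mk' h (by simp) ?_
    exact ((h.near_T_iff hodd hd hR10 0).1 hR1T).trans_lt (pow_lt_one₀ hp0.le hp1 (by norm_num))
  have cc : Cg c c := Cg.rfl' hc
  have cD : Cg (sD (nx Q₁) (nx R₁)) (2 * (c - 1)) := by
    have : (2 : K) * (c - 1) = 3 * c * 1 - c - 1 - 1 := by ring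
    rw [this]
    exact (((((Cg.three h).mul h cQ1).mul h cR1).sub h cQ1).sub h cR1).sub h Cg.one
  have cS : Cg (sS (nx Q₁) (nx R₁)) (c + 2) := by
    have : c + 2 = c + 1 + 1 := by ring
    rw [this]
    exact (cQ1.add h cR1).add h Cg.one
  have hn2 : ‖(2 : K) * (c - 1)‖ = 1 := by rw [norm_mul, h.norm_two hodd, hc1, mul_one]
  have cr : Cg (rho (nx Q₁) (nx R₁)) (-2 * (c + 2) / (2 * (c - 1))) :=
    (((Cg.two h).neg).mul h cS).div h cD hn2
  have hc10 : c - 1 ≠ 0 := by intro h5; rw [h5, norm_zero] at hc1; norm_num at hc1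
  have h20 : (2 : K) ≠ 0 := two_ne_zero
  apply hR d'' Q'' R'' hQ''0
  · have c5 : Cg (nx Q'') (1 + -2 * (c + 2) / (2 * (c - 1)) * (c - 1)) := by
      rw [hx']
      exact Cg.one.add h (cr.mul h (cQ1.sub h Cg.one))
    have e : 1 + -2 * (c + 2) / (2 * (c - 1)) * (c - 1) = -c - 1 := by
      field_simp; ring
    rw [e] at c5
    exact c5.c
  · apply (h.near_T_iff hodd _ hR''0 0).2 (h.lt_le' _)
    have c5 : Cg (nx R'') (1 + -2 * (c + 2) / (2 * (c - 1)) * (1 - 1)) := by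
      rw [hy']
      exact Cg.one.add h (cr.mul h (cR1.sub h Cg.one))
    have e : 1 + -2 * (c + 2) / (2 * (c - 1)) * (1 - 1) = 1 := by ring
    rw [e] at c5
    exact c5.c

theorem LocHyp.Rc_int (h : LocHyp K π) (hodd : ¬ π ∣ 2) (hA : (FLD K π).LStable A)
    (hNN : (FLD K π).NN ⊆ A) (n : ℤ) : Rc A (n : K) := by
  obtain ⟨h0, h1, hm1⟩ := h.Rc_node hodd hNN
  -- `c - 1` from `c`
  have step : ∀ c : K, ‖c‖ ≤ 1 → Rc A c → Rc A (c - 1) := by
    intro c hc hR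
    have hc2 : ‖c - 1 - 1‖ ≤ 1 :=
      (h.norm_sub_le _ _).trans (max_le ((h.norm_sub_le _ _).trans (max_le hc (by simp))) (by simp))
    by_cases h2 : ‖c - 1 - 1‖ < 1
    · refine Rc_congr ?_ h h1
      rw [norm_sub_rev]; exact h2
    · apply h.Rc_sig hodd hA ((h.norm_sub_le _ _).trans (max_le hc (by simp)))
        (le_antisymm hc2 (not_lt.1 h2))
      have e : -(c - 1) - 1 = -c := by ring
      rw [e]
      exact h.Rc_neg hA hR
  have hneg : ∀ k : ℕ, Rc A ((-(k : ℤ) : ℤ) : K) := by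
    intro k
    induction k with
    | zero => simpa using h0
    | succ k ih =>
      have := step _ (h.norm_intCast_le _) ih
      convert this using 1
      push_cast; ring
  obtain ⟨k, rfl | rfl⟩ := Int.eq_nat_or_neg n
  · have := h.Rc_neg hA (hneg k)
    convert this using 1
    push_cast; ring
  · exact hneg k

end GWA
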