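import Pool.Agent.Helper15.WA.TRB
import Pool.Agent.Helper15.WA.L3
import Pool.Agent.Helper16.GWA.TREa
import Pool.Agent.Helper16.GWA.TRE
import Pool.Agent.Helper21.GWA.TRC
import Pool.Agent.Helper33.GWA.TRFcore
import Pool.Agent.Helper56.GWA.TRGcore

/-!
# Local transitivity at the tame places
-/

namespace GWA

variable {K : Type} [NormedField K] [Algebra GaussianInt K] {π : GaussianInt}
  [NeZero (2 : K)] [DecidableEq K] {A : Set (FLD K π).Sys}

theorem LocHyp.trans_tame (h : LocHyp K π) (hodd : ¬ π ∣ 2) (A : Set (FLD K π).Sys)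
    (hA : (FLD K π).LStable A) (hNN : (FLD K π).NN ⊆ A) : A = Set.univ := by
  apply h.univ_of_Rc hodd hA hNN
  rcases prime_cases h.prime hodd with hs | ⟨q, hq, hq4, hπq⟩
  · intro c hc
    obtain ⟨a, ha⟩ := h.res c hc
    obtain ⟨n, hn⟩ := hs a
    have h1 : ‖algebraMap GaussianInt K (a - (n : GaussianInt))‖ < 1 :=
      (h.norm_lt_one_iff _).2 hn
    rw [map_sub, map_intCast] at h1
    refine Rc_congr ?_ h (h.Rc_int hodd hA hNN n)
    have e : (n : K) - c = -((algebraMap GaussianInt K a - n) + (c - algebraMap GaussianInt K a)) := by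
      ring
    rw [e, norm_neg]
    exact (h.ultra _ _).trans_lt (max_lt h1 ha)
  · have hlink : ∃ c : K, ‖c‖ ≤ 1 ∧ (∀ n : ℤ, ‖c - n‖ = 1) ∧ Rc A c := by
      by_cases h11 : 11 ≤ q
      · exact h.link_ge_of hodd hA (h.Rc_int hodd hA hNN) (fun _ _ hcc hR => Rc_congr hcc h hR)
          (fun _ _ => h.Cl_of_Rc hodd hA) (fun _ _ => h.Rc_of_Cl hodd hA) hq hq4 hπq h11
      · have h37 : q = 3 ∨ q = 7 := by omega
        rcases h37 with rfl | rfl
        · exact h.link_three hodd hA hNN (by simpa using hπq)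
        · exact h.link_seven_core hodd hA (by simpa using hπq) (h.Rc_int hodd hA hNN)
            (h.Cl_of_Rc hodd hA) (h.Rc_of_Cl hodd hA)
    obtain ⟨c, hc, hcn, hR⟩ := hlink
    exact h.Rc_all_of_inert hodd hA hNN hq hq4 hπq hc hcn hR

end GWA
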